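import Pool.Agent.Helper53.TPR.Order
import Pool.Agent.Helper53.CSC.Flag

/-! Cosecant flags give strictly totally positive matrices. -/

namespace Pool.TPR

open Polynomial ExteriorAlgebra Pool.CSC Module

noncomputable section

/-- the vector of a real polynomial -/
def vecr (n : ℕ) : ℝ[X] →ₗ[ℝ] (Fin n → ℂ) where
  toFun f i := ((f.coeff (n - 1 - (i : ℕ)) : ℝ) : ℂ) /
    ((n - 1).choose i * (-1 : ℂ) ^ (n - 1 - (i : ℕ)))
  map_add' f g := by
    ext i
    simp [add_div]
  map_smul' c f := by
    ext i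
    simp [mul_div_assoc]

lemma fp_vecr {n : ℕ} {f : ℝ[X]} (hf : f.natDegree < n) : fp n (vecr n f) = cx f := by
  have key : ∀ i : Fin n, (fp n (vecr n f)).coeff (n - 1 - (i : ℕ)) =
      (cx f).coeff (n - 1 - (i : ℕ)) := by
    intro i
    rw [fp_coeff]
    simp only [vecr, LinearMap.coe_mk, AddHom.coe_mk]
    rw [mul_div_cancel₀ _ (fp_coeff_ne n i), cx, coeff_map]
    rfl
  ext j
  by_cases hj : j < n
  · have h1 : j = n - 1 - ((⟨n - 1 - j, by omega⟩ : Fin n) : ℕ) := by
      simp only
      omega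
    rw [h1]
    exact key _
  · have h1 := fp_degree n (vecr n f)
    rw [mem_degreeLT] at h1
    rw [coeff_eq_zero_of_degree_lt (h1.trans_le (by exact_mod_cast (not_lt.1 hj))), cx, coeff_map,
      coeff_eq_zero_of_natDegree_lt (by omega), map_zero]

lemma cx_mul (f g : ℝ[X]) : cx (f * g) = cx f * cx g := by simp [cx]

lemma cx_eval (f : ℝ[X]) (t : ℝ) : (cx f).eval (t : ℂ) = ((f.eval t : ℝ) : ℂ) := by
  rw [cx, show ((t : ℝ) : ℂ) = algebraMap ℝ ℂ t from rfl, eval_map_algebraMap,
    aeval_algebraMap_apply_eq_algebraMap_eval]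
  rfl

lemma cx_degree (f : ℝ[X]) : (cx f).degree = f.degree := by
  rw [cx, degree_map_eq_of_injective (algebraMap ℝ ℂ).injective]

lemma fr_eval_ne {S : List ℝ} {t : ℝ} (h : t ∉ S) : (fr S).eval t ≠ 0 := by
  induction S with
  | nil => simp
  | cons s S ih =>
    rw [List.mem_cons, not_or] at h
    rw [fr_cons, eval_mul, eval_sub, eval_X, eval_C]
    exact mul_ne_zero (sub_ne_zero.2 h.1) (ih h.2)

lemma dvd_of_roots (S : List ℝ) (hS : S.Nodup) (f : ℂ[X])
    (h : ∀ s ∈ S, f.eval ((s : ℝ) : ℂ) = 0) : cx (fr S) ∣ f := by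
  induction S generalizing f with
  | nil => simp [cx]
  | cons s S ih =>
    rw [List.nodup_cons] at hS
    obtain ⟨g, rfl⟩ := ih hS.2 f fun t ht => h t (by simp [ht])
    have h1 := h s (by simp)
    rw [eval_mul, cx_eval] at h1
    have h2 : g.eval ((s : ℝ) : ℂ) = 0 := by
      rcases mul_eq_zero.1 h1 with h3 | h3
      · exact absurd (by exact_mod_cast h3) (fr_eval_ne hS.1)
      · exact h3
    obtain ⟨g', rfl⟩ := dvd_iff_isRoot.2 h2
    refine ⟨g', ?_⟩
    rw [fr_cons, cx_mul]
    have : cx (X - C s) = X - C ((s : ℝ) : ℂ) := by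
      simp [cx]
    rw [this]
    ring

/-- all roots, with one additional root -/
def ext' (n : ℕ) (s : Fin (n - 1) → ℝ) (a : ℝ) (i : Fin n) : ℝ :=
  if h : (i : ℕ) < n - 1 then s ⟨i, h⟩ else a

/-- the first roots -/
def rts (n : ℕ) (s : Fin (n - 1) → ℝ) (a : ℝ) : List ℝ := List.ofFn (ext' n s a)

lemma rts_length (n : ℕ) (s : Fin (n - 1) → ℝ) (a : ℝ) : (rts n s a).length = n := by simp [rts]

lemma rts_nodup {n : ℕ} {s : Fin (n - 1) → ℝ} {a : ℝ} (hs : Function.Injective s)
    (ha : ∀ i, a ≠ s i) : (rts n s a).Nodup := by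
  rw [rts, List.nodup_ofFn]
  intro i j hij
  simp only [ext'] at hij
  split_ifs at hij with h1 h2 h2
  · have := hs hij
    rw [Fin.mk.injEq] at this
    exact Fin.ext this
  · exact absurd hij.symm (ha _)
  · exact absurd hij (ha _)
  · apply Fin.ext
    have := i.2
    have := j.2
    omega

lemma mem_take_rts {n : ℕ} {s : Fin (n - 1) → ℝ} {a : ℝ} {k : ℕ} (hk : k ≤ n - 1) {x : ℝ} :
    x ∈ (rts n s a).take k ↔ ∃ i : Fin (n - 1), (i : ℕ) < k ∧ s i = x := by
  rw [List.mem_take_iff_getElem]
  constructor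
  · rintro ⟨i, hi, rfl⟩
    rw [rts_length] at hi
    refine ⟨⟨i, by omega⟩, by
      show i < k
      omega, ?_⟩
    simp only [rts, List.getElem_ofFn, ext']
    rw [dif_pos (by omega)]
  · rintro ⟨i, hi, rfl⟩
    refine ⟨i, by
      rw [rts_length]
      omega, ?_⟩
    simp only [rts, List.getElem_ofFn, ext']
    rw [dif_pos i.2]

lemma mem_F {n : ℕ} (hn : 2 ≤ n) {F : ℕ → Submodule ℂ (Fin n → ℂ)} {s : Fin (n - 1) → ℝ} {a : ℝ}
    (hs : Function.Injective s) (ha : ∀ i, a ≠ s i) (hF0 : F 0 = ⊥)
    (hFs : ∀ j ≤ n - 1, F (n - j) = ⨅ (i : Fin (n - 1)) (_ : (i : ℕ) < j), osc n (s i))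
    {j : ℕ} (hj : j ≤ n) (v : Fin n → ℂ) :
    v ∈ F j ↔ cx (fr ((rts n s a).take (n - j))) ∣ fp n v := by
  rcases Nat.eq_zero_or_pos j with rfl | hj0
  · rw [hF0, Submodule.mem_bot]
    constructor
    · rintro rfl
      rw [map_zero]
      exact dvd_zero _
    · intro h
      by_contra hv
      have h1 : fp n v ≠ 0 := fun h0 => hv (fp_injective n (by rw [h0, map_zero]))
      have h2 := degree_le_of_dvd h h1
      have h3 := fp_degree n v
      rw [mem_degreeLT] at h3
      rw [cx_degree, degree_fr, List.length_take, rts_length] at h2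
      have h4 := h2.trans_lt h3
      have : min (n - 0) n < n := by exact_mod_cast h4
      omega
  · have h1 := hFs (n - j) (by omega)
    rw [show n - (n - j) = j by omega] at h1
    rw [h1, mem_flag (by omega)]
    constructor
    · intro h
      refine dvd_of_roots _ ((rts_nodup hs ha).sublist (List.take_sublist _ _)) _ ?_
      intro x hx
      rw [mem_take_rts (by omega)] at hx
      obtain ⟨i, hi, rfl⟩ := hx
      exact h i hi
    · rintro ⟨g, hg⟩ i hi
      rw [hg, eval_mul, cx_eval, fr_root _ _ ((mem_take_rts (by omega)).2 ⟨i, hi, rfl⟩)]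
      simp

lemma natDegree_fr (S : List ℝ) : (fr S).natDegree = S.length := by
  rw [natDegree, degree_fr]
  rfl

lemma F_eq_span {n : ℕ} (hn : 2 ≤ n) {F : ℕ → Submodule ℂ (Fin n → ℂ)} {s : Fin (n - 1) → ℝ}
    {a : ℝ} (hs : Function.Injective s) (ha : ∀ i, a ≠ s i) (hF0 : F 0 = ⊥)
    (hFs : ∀ j ≤ n - 1, F (n - j) = ⨅ (i : Fin (n - 1)) (_ : (i : ℕ) < j), osc n (s i))
    {j : ℕ} (hj : j ≤ n) :
    F j = Submodule.span ℂ {v | ∃ i < j, v = vecr n (X ^ i * fr ((rts n s a).take (n - j)))} := by
  set p := fr ((rts n s a).take (n - j)) with hp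
  have hpd : p.natDegree = n - j := by
    rw [hp, natDegree_fr, List.length_take, rts_length]
    omega
  have hpm : p.degree = (n - j : ℕ) := by
    rw [hp, degree_fr, List.length_take, rts_length]
    congr 1
    omega
  have hdeg : ∀ i < j, (X ^ i * p).natDegree < n := by
    intro i hi
    refine lt_of_le_of_lt natDegree_mul_le ?_
    rw [natDegree_X_pow, hpd]
    omega
  apply le_antisymm
  · intro v hv
    rw [mem_F hn hs ha hF0 hFs hj] at hv
    obtain ⟨g, hg⟩ := hv
    rw [← hp] at hg
    have hgd : g = 0 ∨ g.natDegree < j := by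
      rcases eq_or_ne g 0 with h0 | h0
      · exact Or.inl h0
      · right
        have h3 := fp_degree n v
        rw [mem_degreeLT, hg, degree_mul, cx_degree, hpm, degree_eq_natDegree h0] at h3
        have h4 : (n - j) + g.natDegree < n := by exact_mod_cast h3
        omega
    have h1 : v = ∑ i ∈ Finset.range j, g.coeff i • vecr n (X ^ i * p) := by
      apply fp_injective n
      rw [map_sum, hg]
      have h2 : g = ∑ i ∈ Finset.range j, C (g.coeff i) * X ^ i := by
        rcases hgd with h0 | h0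
        · rw [h0]
          simp
        · exact g.as_sum_range_C_mul_X_pow' h0
      nth_rewrite 1 [h2]
      rw [Finset.mul_sum]
      refine Finset.sum_congr rfl fun i hi => ?_
      rw [map_smul, fp_vecr (hdeg i (Finset.mem_range.1 hi)), cx_mul, smul_eq_C_mul]
      have : cx (X ^ i) = X ^ i := by simp [cx]
      rw [this]
      ring
    rw [h1]
    refine Submodule.sum_mem _ fun i hi => Submodule.smul_mem _ _ (Submodule.subset_span ?_)
    exact ⟨i, Finset.mem_range.1 hi, rfl⟩
  · rw [Submodule.span_le]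
    rintro v ⟨i, hi, rfl⟩
    rw [SetLike.mem_coe, mem_F hn hs ha hF0 hFs hj, fp_vecr (hdeg i hi), cx_mul, ← hp]
    exact Dvd.intro_left _ rfl

lemma F_sup {n : ℕ} (hn : 2 ≤ n) {F : ℕ → Submodule ℂ (Fin n → ℂ)} {s : Fin (n - 1) → ℝ}
    {a : ℝ} (hs : Function.Injective s) (ha : ∀ i, a ≠ s i) (hF0 : F 0 = ⊥)
    (hFs : ∀ j ≤ n - 1, F (n - j) = ⨅ (i : Fin (n - 1)) (_ : (i : ℕ) < j), osc n (s i))
    {e r : ℕ} (hj : e + r ≤ n) (T : List ℝ)
    (hT : T.Perm (((rts n s a).take (n - e)).drop (n - (e + r)))) :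
    F (e + r) = F e ⊔ Submodule.span ℂ {v | ∃ t ∈ T,
      v = vecr n (fr ((rts n s a).take (n - (e + r))) * fr (T.erase t))} := by
  set S := (rts n s a).take (n - (e + r)) with hS
  have hTl : T.length = r := by
    rw [hT.length_eq, List.length_drop, List.length_take, rts_length]
    omega
  have hSl : S.length = n - (e + r) := by
    rw [hS, List.length_take, rts_length]
    omega
  have hperm : (S ++ T).Perm ((rts n s a).take (n - e)) := by
    have h1 : (rts n s a).take (n - e) = ((rts n s a).take (n - e)).take (n - (e + r)) ++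
        ((rts n s a).take (n - e)).drop (n - (e + r)) := (List.take_append_drop _ _).symm
    rw [h1, List.take_take, show min (n - (e + r)) (n - e) = n - (e + r) by omega]
    exact (List.Perm.refl _).append hT
  have hnd : (S ++ T).Nodup := hperm.nodup_iff.2
    ((rts_nodup hs ha).sublist (List.take_sublist _ _))
  have hTnd : T.Nodup := (List.nodup_append.1 hnd).2.1
  have hST : ∀ t ∈ T, t ∉ S := fun t ht hts => (List.nodup_append.1 hnd).2.2 t hts t ht rfl
  have hdeg : ∀ t ∈ T, (fr S * fr (T.erase t)).natDegree < n := by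
    intro t ht
    refine lt_of_le_of_lt natDegree_mul_le ?_
    rw [natDegree_fr, natDegree_fr, List.length_erase_of_mem ht, hSl, hTl]
    have : 0 < T.length := List.length_pos_of_mem ht
    omega
  apply le_antisymm
  · intro v hv
    rw [mem_F hn hs ha hF0 hFs hj, ← hS] at hv
    set f := fp n v with hf
    classical
    set w : Fin n → ℂ := ∑ t ∈ T.toFinset, (f.eval ((t : ℝ) : ℂ) /
      (cx (fr S * fr (T.erase t))).eval ((t : ℝ) : ℂ)) • vecr n (fr S * fr (T.erase t)) with hw
    have hwm : w ∈ Submodule.span ℂ {v | ∃ t ∈ T,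
        v = vecr n (fr S * fr (T.erase t))} := by
      refine Submodule.sum_mem _ fun t ht => Submodule.smul_mem _ _ (Submodule.subset_span ?_)
      exact ⟨t, by simpa using ht, rfl⟩
    have hfw : fp n w = ∑ t ∈ T.toFinset, (f.eval ((t : ℝ) : ℂ) /
      (cx (fr S * fr (T.erase t))).eval ((t : ℝ) : ℂ)) • cx (fr S * fr (T.erase t)) := by
      rw [hw, map_sum]
      refine Finset.sum_congr rfl fun t ht => ?_
      rw [map_smul, fp_vecr (hdeg t (by simpa using ht))]
    have hmem : v - w ∈ F e := by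
      rw [mem_F hn hs ha hF0 hFs (by omega : e ≤ n), ← fr_perm hperm]
      refine dvd_of_roots _ hnd _ ?_
      intro x hx
      rw [map_sub, eval_sub, ← hf, hfw, eval_finsetSum]
      rw [List.mem_append] at hx
      rcases hx with hx | hx
      · have h1 : f.eval ((x : ℝ) : ℂ) = 0 := by
          obtain ⟨g, hg⟩ := hv
          rw [hg, eval_mul, cx_eval, fr_root _ _ hx]
          simp
        rw [h1, Finset.sum_eq_zero, sub_zero]
        intro t ht
        have h2 : (cx (fr S * fr (T.erase t))).eval ((x : ℝ) : ℂ) = 0 := by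
          rw [cx_eval, eval_mul, fr_root _ _ hx]
          simp
        rw [eval_smul, h2, smul_zero]
      · rw [Finset.sum_eq_single x]
        · rw [eval_smul, smul_eq_mul, div_mul_cancel₀, sub_self]
          rw [cx_eval, eval_mul]
          have h1 := fr_eval_ne (hST x hx)
          have h2 : (fr (T.erase x)).eval x ≠ 0 := by
            apply fr_eval_ne
            intro h
            exact (hTnd.mem_erase_iff.1 h).1 rfl
          exact_mod_cast mul_ne_zero h1 h2
        · intro t ht htx
          have h1 : x ∈ T.erase t := hTnd.mem_erase_iff.2 ⟨Ne.symm htx, hx⟩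
          have h2 : (cx (fr S * fr (T.erase t))).eval ((x : ℝ) : ℂ) = 0 := by
            rw [cx_eval, eval_mul, fr_root _ _ h1]
            simp
          rw [eval_smul, h2, smul_zero]
        · intro h
          exact absurd (by simpa using hx) h
    have : v = (v - w) + w := by abel
    rw [this]
    exact Submodule.add_mem_sup hmem hwm
  · apply sup_le
    · intro v hv
      rw [mem_F hn hs ha hF0 hFs (by omega : e ≤ n), ← fr_perm hperm, fr_append, cx_mul] at hv
      rw [mem_F hn hs ha hF0 hFs hj, ← hS]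
      exact dvd_of_mul_right_dvd hv
    · rw [Submodule.span_le]
      rintro v ⟨t, ht, rfl⟩
      rw [SetLike.mem_coe, mem_F hn hs ha hF0 hFs hj, ← hS, fp_vecr (hdeg t ht), cx_mul]
      exact Dvd.intro _ rfl

/-- images of real spans -/
lemma span_vecr_le {n : ℕ} {L L' : List ℝ[X]}
    (h : Submodule.span ℝ {f | f ∈ L} ≤ Submodule.span ℝ {f | f ∈ L'}) :
    Submodule.span ℂ {v | ∃ f ∈ L, v = vecr n f} ≤ Submodule.span ℂ {v | ∃ f ∈ L', v = vecr n f} := by
  rw [Submodule.span_le]
  rintro v ⟨f, hf, rfl⟩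
  have h1 : f ∈ Submodule.span ℝ {f | f ∈ L'} := h (Submodule.subset_span hf)
  have h2 : Submodule.span ℝ {f | f ∈ L'} ≤
      ((Submodule.span ℂ {v | ∃ f ∈ L', v = vecr n f}).restrictScalars ℝ).comap (vecr n) := by
    rw [Submodule.span_le]
    intro g hg
    exact Submodule.subset_span ⟨g, hg, rfl⟩
  exact h2 h1

lemma span_vecr_eq {n : ℕ} {L L' : List ℝ[X]} (h : SE L L') :
    Submodule.span ℂ {v | ∃ f ∈ L, v = vecr n f} = Submodule.span ℂ {v | ∃ f ∈ L', v = vecr n f} :=
  le_antisymm (span_vecr_le h.2.le) (span_vecr_le h.2.ge)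

lemma allY_flat {m n : ℕ} (fl : Fin m → Fl) (idx : List (Fin m)) : ∀ (ε₀ : ℝ), ε₀ ≠ 0 → idx.Nodup →
    ∃ ε : Fin m → ℝ, (∀ l, ε l ≠ 0) ∧
      allY n ε₀ (idx.map fl) = idx.flatMap fun l => (Yv n (fl l)).map fun f => ε l • f := by
  induction idx with
  | nil =>
    intro ε₀ h _
    exact ⟨fun _ => 1, fun _ => one_ne_zero, rfl⟩
  | cons l idx ih =>
    intro ε₀ h0 hnd
    rw [List.nodup_cons] at hnd
    obtain ⟨ε, hε, h⟩ := ih (ε₀ * (-1) ^ (fl l).e)
      (mul_ne_zero h0 (pow_ne_zero _ (by norm_num))) hnd.2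
    refine ⟨Function.update ε l ε₀, ?_, ?_⟩
    · intro l'
      by_cases hl : l' = l
      · subst hl
        rwa [Function.update_self]
      · rw [Function.update_of_ne hl]
        exact hε l'
    · rw [List.map_cons, allY, h, List.flatMap_cons, Function.update_self]
      congr 1
      apply List.flatMap_congr
      intro l' hl'
      have : l' ≠ l := by
        rintro rfl
        exact hnd.1 hl'
      rw [Function.update_of_ne this]

lemma flatMap_filter' {α β : Type*} (l : List α) (p : α → Bool) (f : α → List β)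
    (h : ∀ x, p x = false → f x = []) : l.flatMap f = (l.filter p).flatMap f := by
  induction l with
  | nil => rfl
  | cons x l ih =>
    rw [List.flatMap_cons, ih]
    by_cases hx : p x = true
    · rw [List.filter_cons_of_pos hx, List.flatMap_cons]
    · rw [List.filter_cons_of_neg hx, h x (by simpa using hx), List.nil_append]

lemma mem_allB {n : ℕ} (Fs : List Fl) (f : ℝ[X]) : f ∈ allB n Fs ↔ ∃ F ∈ Fs, f ∈ Bv n F := by
  induction Fs with
  | nil => simp [allB]
  | cons F Fs ih => rw [allB, List.mem_append, ih]; simp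

lemma allB_length {n : ℕ} (Fs : List Fl) : (allB n Fs).length = (Fs.map Fl.e).sum := by
  induction Fs with
  | nil => simp [allB]
  | cons F Fs ih => simp [allB, ih, Bv]

lemma mem_bl_iff (g : ℝ[X]) (r : ℕ) (f : ℝ[X]) : f ∈ bl g r ↔ ∃ a < r, f = X ^ a * g := by
  induction r generalizing g with
  | zero => simp [bl]
  | succ r ih =>
    rw [bl, List.mem_cons, ih]
    constructor
    · rintro (rfl | ⟨a, ha, rfl⟩)
      · exact ⟨0, by omega, by simp⟩
      · exact ⟨a + 1, by omega, by ring⟩
    · rintro ⟨a, ha, rfl⟩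
      rcases a with _ | a
      · left
        simp
      · right
        exact ⟨a, by omega, by ring⟩

lemma vecr_conj {n : ℕ} (f : ℝ[X]) (x : Fin n) :
    (starRingEnd ℂ) (vecr n f x) = vecr n f x := by
  simp only [vecr, LinearMap.coe_mk, AddHom.coe_mk]
  simp [map_div₀, Complex.conj_ofReal]

lemma indep_of_span {V : Type*} [AddCommGroup V] [Module ℂ V] [FiniteDimensional ℂ V] {n N : ℕ}
    (hV : finrank ℂ V = n) {E : Submodule ℂ V} (hE : finrank ℂ E + N ≤ n) {z : ℕ → V}
    (hz : E ⊔ Submodule.span ℂ {v | ∃ j < N, v = z j} = ⊤) (c : ℕ → ℂ)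
    (hc : ∑ i ∈ Finset.range N, c i • z i ∈ E) : ∀ i < N, c i = 0 := by
  have h1 : ⊤ ≤ Submodule.span ℂ (Set.range fun i : Fin N => E.mkQ (z i)) := by
    rintro w -
    obtain ⟨v, rfl⟩ := E.mkQ_surjective w
    have hv : v ∈ E ⊔ Submodule.span ℂ {v | ∃ j < N, v = z j} := by
      rw [hz]
      trivial
    obtain ⟨u, hu, u', hu', rfl⟩ := Submodule.mem_sup.1 hv
    rw [map_add, (Submodule.Quotient.mk_eq_zero E).2 hu |> fun h => (show E.mkQ u = 0 from h),
      zero_add]
    have h2 : Submodule.span ℂ {v | ∃ j < N, v = z j} ≤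
        (Submodule.span ℂ (Set.range fun i : Fin N => E.mkQ (z i))).comap E.mkQ := by
      rw [Submodule.span_le]
      rintro v ⟨j, hj, rfl⟩
      exact Submodule.subset_span ⟨⟨j, hj⟩, rfl⟩
    exact h2 hu'
  have h3 : finrank ℂ (V ⧸ E) ≤ N := by
    have h4 := finrank_range_le_card (R := ℂ) (fun i : Fin N => E.mkQ (z i))
    rw [Set.finrank, top_le_iff.1 h1, finrank_top, Fintype.card_fin] at h4
    exact h4
  have h5 := Submodule.finrank_quotient_add_finrank E
  rw [hV] at h5
  have h6 : Fintype.card (Fin N) = finrank ℂ (V ⧸ E) := by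
    rw [Fintype.card_fin]
    omega
  have h7 := linearIndependent_of_top_le_span_of_card_eq_finrank h1 h6
  have h8 : ∑ i : Fin N, c i • E.mkQ (z i) = 0 := by
    have h9 : E.mkQ (∑ i ∈ Finset.range N, c i • z i) = 0 := (Submodule.Quotient.mk_eq_zero E).2 hc
    rw [map_sum] at h9
    rw [Fin.sum_univ_eq_sum_range (fun i => c i • E.mkQ (z i)), ← h9]
    exact Finset.sum_congr rfl fun i _ => (map_smul _ _ _).symm
  intro i hi
  exact Fintype.linearIndependent_iff.1 h7 (fun i : Fin N => c i) h8 ⟨i, hi⟩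

/-- concatenation of four families -/
def cat4 {V : Type*} (y : Fin 4 → ℕ → V) (r : Fin 4 → ℕ) (π : Equiv.Perm (Fin 4)) (x : ℕ) : V :=
  if x < r (π 0) then y (π 0) x
  else if x < r (π 0) + r (π 1) then y (π 1) (x - r (π 0))
  else if x < r (π 0) + r (π 1) + r (π 2) then y (π 2) (x - (r (π 0) + r (π 1)))
  else y (π 3) (x - (r (π 0) + r (π 1) + r (π 2)))

theorem cosecant_stp {n m N : ℕ} (hn : 2 ≤ n) (I : Fin m → Set ℝ) (hI : ∀ l, (I l).OrdConnected)
    (hd : Pairwise (fun l l' => Disjoint (I l) (I l')))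
    (F : Fin m → ℕ → Submodule ℂ (Fin n → ℂ)) (hF : ∀ l, Cosecant n (I l) (F l))
    (e : Fin m → ℕ) (τ : Fin 4 → Fin m) (hτ : Function.Injective τ) (r : Fin 4 → ℕ)
    (hrN : ∀ i, r i ≤ N) (he : ∑ l, e l + N = n) (hr : ∑ i, r i = 2 * N) :
    ∃ (π : Equiv.Perm (Fin 4)) (y : Fin 4 → ℕ → Fin n → ℂ) (b : Fin m → ℕ → Fin n → ℂ)
      (C : ℕ → ℕ → ℝ),
      (∀ l, F l (e l) = Submodule.span ℂ {v | ∃ i < e l, v = b l i}) ∧
      (∀ i, F (τ i) (e (τ i) + r i) =
        F (τ i) (e (τ i)) ⊔ Submodule.span ℂ {v | ∃ j < r i, v = y i j}) ∧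
      N ≤ r (π 0) + r (π 1) ∧ N ≤ r (π 0) + r (π 2) ∧
      (⨆ l, F l (e l)) ⊔ Submodule.span ℂ {v | ∃ j < N, v = cat4 y r π j} = ⊤ ∧
      (∀ j < N, cat4 y r π (N + j) - ∑ i ∈ Finset.range N, (C j i : ℂ) • cat4 y r π i ∈
        ⨆ l, F l (e l)) ∧
      STP N (fun a b => (-1) ^ a * C b (N - 1 - a)) ∧
      (∀ i j x, (starRingEnd ℂ) (y i j x) = y i j x) ∧
      (∀ l i x, (starRingEnd ℂ) (b l i x) = b l i x) ∧
      (∀ c : ℕ → ℂ, ∑ i ∈ Finset.range N, c i • cat4 y r π i ∈ ⨆ l, F l (e l) →
        ∀ i < N, c i = 0) := by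
  classical
  choose hF0 s hsi hsI hFs using hF
  -- a root of every flag
  let z0 : Fin (n - 1) := ⟨0, by omega⟩
  let key : Fin m → ℝ := fun l => s l z0
  have hkey : Function.Injective key := by
    intro l l' h
    by_contra hne
    exact Set.disjoint_left.1 (hd hne) (hsI l z0) (by
      have : s l z0 = s l' z0 := h
      rw [this]
      exact hsI l' z0)
  have hsep : ∀ l l', key l < key l' → ∀ i i', s l i < s l' i' := by
    intro l l' h i i'
    have hne : l ≠ l' := by
      rintro rfl
      exact lt_irrefl _ h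
    exact sep (hI l) (hI l') (hd hne) (hsI l z0) (hsI l' z0) h _ (hsI l i) _ (hsI l' i')
  -- base points and additional roots
  have hbase : ∀ l, ∃ a a' : ℝ, (∀ l', key l' < key l → ∀ i, s l' i < a) ∧ a < a' ∧
      ∀ i, a' < s l i := by
    intro l
    obtain ⟨a, h1, h2⟩ := Order.exists_between_finsets
      ((Finset.univ.filter fun l' => key l' < key l).biUnion
        fun l' => Finset.univ.image (s l')) (Finset.univ.image (s l)) (by
      intro x hx y hy
      simp only [Finset.mem_biUnion, Finset.mem_filter, Finset.mem_univ, true_and,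
        Finset.mem_image] at hx hy
      obtain ⟨l', hl', i, rfl⟩ := hx
      obtain ⟨i', rfl⟩ := hy
      exact hsep _ _ hl' _ _)
    obtain ⟨a', h3, h4⟩ := Order.exists_between_finsets {a} (Finset.univ.image (s l)) (by
      intro x hx y hy
      rw [Finset.mem_singleton] at hx
      subst hx
      exact h2 y hy)
    refine ⟨a, a', fun l' hl' i => h1 _ ?_, h3 a (by simp), fun i => h4 _ (by simp)⟩
    simp only [Finset.mem_biUnion, Finset.mem_filter, Finset.mem_univ, true_and,
      Finset.mem_image]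
    exact ⟨l', hl', i, rfl⟩
  choose a a' ha1 ha2 ha3 using hbase
  have hane : ∀ l i, a' l ≠ s l i := fun l i => (ha3 l i).ne
  -- the block sizes
  let rr : Fin m → ℕ := fun l => ∑ i, if τ i = l then r i else 0
  have hrrτ : ∀ i, rr (τ i) = r i := by
    intro i
    show ∑ j, (if τ j = τ i then r j else 0) = r i
    rw [Finset.sum_eq_single i]
    · simp
    · intro j _ hj
      rw [if_neg fun h => hj (hτ h)]
    · simp
  have hrr0 : ∀ l, (∀ i, τ i ≠ l) → rr l = 0 := by
    intro l hl
    exact Finset.sum_eq_zero fun i _ => if_neg (hl i)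
  have hrrN : ∀ l, rr l ≤ N := by
    intro l
    by_cases h : ∃ i, τ i = l
    · obtain ⟨i, rfl⟩ := h
      rw [hrrτ]
      exact hrN i
    · push Not at h
      rw [hrr0 l h]
      exact Nat.zero_le _
  have hele : ∀ l, e l + rr l ≤ n := by
    intro l
    have h1 : e l ≤ ∑ l, e l := Finset.single_le_sum (fun _ _ => Nat.zero_le _)
      (Finset.mem_univ l)
    have h2 := hrrN l
    omega
  -- the flags
  let S : Fin m → List ℝ := fun l => (rts n (s l) (a' l)).take (n - (e l + rr l))
  let T₀ : Fin m → List ℝ := fun l =>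
    ((rts n (s l) (a' l)).take (n - e l)).drop (n - (e l + rr l))
  let T : Fin m → List ℝ := fun l => (T₀ l).insertionSort (fun x y => y ≤ x)
  have hTp : ∀ l, (T l).Perm (T₀ l) := fun l => List.perm_insertionSort _ _
  let fl : Fin m → Fl := fun l => ⟨a l, S l, T l, e l⟩
  have hSlen : ∀ l, (S l).length = n - (e l + rr l) := by
    intro l
    show ((rts n (s l) (a' l)).take (n - (e l + rr l))).length = _
    rw [List.length_take, rts_length]
    omega
  have hTlen : ∀ l, (T l).length = rr l := by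
    intro l
    rw [(hTp l).length_eq]
    show (((rts n (s l) (a' l)).take (n - e l)).drop (n - (e l + rr l))).length = _
    rw [List.length_drop, List.length_take, rts_length]
    have := hele l
    omega
  have hSTm : ∀ l x, x ∈ S l ∨ x ∈ T l → x ∈ rts n (s l) (a' l) := by
    intro l x hx
    rcases hx with hx | hx
    · exact List.mem_of_mem_take hx
    · rw [(hTp l).mem_iff] at hx
      exact List.mem_of_mem_take (List.mem_of_mem_drop hx)
  have hrts_lt : ∀ l x, x ∈ rts n (s l) (a' l) → a l < x := by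
    intro l x hx
    rw [rts, List.mem_ofFn] at hx
    obtain ⟨i, rfl⟩ := hx
    rw [ext']
    split_ifs with h
    · exact (ha2 l).trans (ha3 l _)
    · exact ha2 l
  have hrts_lt' : ∀ l l', key l < key l' → ∀ x, x ∈ rts n (s l) (a' l) → x < a l' := by
    intro l l' hll x hx
    rw [rts, List.mem_ofFn] at hx
    obtain ⟨i, rfl⟩ := hx
    rw [ext']
    split_ifs with h
    · exact ha1 l' l hll _
    · exact (ha3 l z0).trans (ha1 l' l hll z0)
  let σ := Tuple.sort key
  have hσ : StrictMono (key ∘ σ) :=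
    (Tuple.monotone_sort key).strictMono_of_injective (hkey.comp σ.injective)
  let idx : List (Fin m) := List.ofFn σ
  have hidx_pw : idx.Pairwise (fun l l' => key l < key l') := by
    rw [List.pairwise_ofFn]
    intro i j hij
    exact hσ hij
  have hidx_nd : idx.Nodup := by
    rw [List.nodup_ofFn]
    exact σ.injective
  have hidx_mem : ∀ l, l ∈ idx := by
    intro l
    rw [List.mem_ofFn]
    exact ⟨σ.symm l, by simp⟩
  let Fs : List Fl := idx.map fl
  have hgood : GoodF n Fs := by
    refine ⟨?_, ?_, ?_, ?_⟩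
    · rw [List.pairwise_map]
      refine hidx_pw.imp ?_
      intro l l' hll
      refine ⟨?_, ?_⟩
      · exact ((ha2 l).trans (ha3 l z0)).trans (ha1 l' l hll z0)
      · intro x hx
        exact hrts_lt' l l' hll x (hSTm l x hx)
    · intro G hG x hx
      rw [List.mem_map] at hG
      obtain ⟨l, -, rfl⟩ := hG
      exact hrts_lt l x (hSTm l x hx)
    · intro G hG
      rw [List.mem_map] at hG
      obtain ⟨l, -, rfl⟩ := hG
      show e l + (S l).length + (T l).length ≤ n
      rw [hSlen, hTlen]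
      have := hele l
      omega
    · intro G hG
      rw [List.mem_map] at hG
      obtain ⟨l, -, rfl⟩ := hG
      show (T l).Pairwise (fun a b => b < a)
      have h1 : (T l).Pairwise (fun a b => b ≤ a) :=
        List.pairwise_insertionSort (fun x y : ℝ => y ≤ x) (T₀ l)
      have h2 : (T l).Nodup := by
        rw [(hTp l).nodup_iff]
        exact ((rts_nodup (hsi l) (hane l)).sublist (List.take_sublist _ _)).sublist
          (List.drop_sublist _ _)
      have h3 := h1.and h2
      exact h3.imp fun h => lt_of_le_of_ne h.1 (Ne.symm h.2)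
  have hsumE : (Fs.map Fl.e).sum = ∑ l, e l := by
    have h1 : Fs.map Fl.e = List.ofFn (fun i => e (σ i)) := by
      simp only [Fs, idx, List.map_ofFn]
      rfl
    rw [h1, List.sum_ofFn, Equiv.sum_comp σ e]
  have hqf : ∀ l, qf n (fl l) = fr (S l) := by
    intro l
    show (X - C (a l)) ^ (n - e l - (T l).length - (S l).length) * fr (S l) = fr (S l)
    rw [hSlen, hTlen, show n - e l - rr l - (n - (e l + rr l)) = 0 by omega, pow_zero, one_mul]
  have hperm : ∀ l, (S l ++ T l).Perm ((rts n (s l) (a' l)).take (n - e l)) := by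
    intro l
    have h1 : (rts n (s l) (a' l)).take (n - e l) =
        ((rts n (s l) (a' l)).take (n - e l)).take (n - (e l + rr l)) ++
        ((rts n (s l) (a' l)).take (n - e l)).drop (n - (e l + rr l)) :=
      (List.take_append_drop _ _).symm
    rw [h1, List.take_take, show min (n - (e l + rr l)) (n - e l) = n - (e l + rr l) by omega]
    exact (List.Perm.refl _).append (hTp l)
  -- the total list
  obtain ⟨ε, hε, hflat⟩ := allY_flat (n := n) fl idx 1 one_ne_zero hidx_nd
  let g : Fin m → List ℝ[X] := fun l => (Yv n (fl l)).map fun f => ε l • f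
  have hglen : ∀ l, (g l).length = rr l := by
    intro l
    simp only [g, Yv, List.length_map]
    exact hTlen l
  have hg0 : ∀ l, (decide (∃ i, τ i = l)) = false → g l = [] := by
    intro l hl
    rw [decide_eq_false_iff_not] at hl
    push Not at hl
    rw [← List.length_eq_zero_iff, hglen, hrr0 l hl]
  let π' : Equiv.Perm (Fin 4) := Tuple.sort (key ∘ τ)
  have hπ' : StrictMono ((key ∘ τ) ∘ π') :=
    (Tuple.monotone_sort (key ∘ τ)).strictMono_of_injective
      ((hkey.comp hτ).comp π'.injective)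
  have hfilter : idx.filter (fun l => decide (∃ i, τ i = l)) = List.ofFn (fun i => τ (π' i)) := by
    refine List.Perm.eq_of_pairwise (le := fun l l' => key l < key l') ?_ ?_ ?_ ?_
    · intro a b _ _ h1 h2
      exact absurd (h1.trans h2) (lt_irrefl _)
    · exact hidx_pw.filter _
    · rw [List.pairwise_ofFn]
      intro i j hij
      exact hπ' hij
    · have hnd2 : (List.ofFn (fun i => τ (π' i))).Nodup :=
        List.nodup_ofFn.2 (hτ.comp π'.injective)
      rw [List.perm_ext_iff_of_nodup (hidx_nd.filter _) hnd2]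
      intro l
      constructor
      · intro h
        obtain ⟨i, rfl⟩ := of_decide_eq_true (List.mem_filter.1 h).2
        exact List.mem_ofFn.2 ⟨π'.symm i, by simp⟩
      · intro h
        obtain ⟨i, rfl⟩ := List.mem_ofFn.1 h
        exact List.mem_filter.2 ⟨hidx_mem _, decide_eq_true ⟨π' i, rfl⟩⟩
  have hall : allY n 1 Fs = g (τ (π' 0)) ++ g (τ (π' 1)) ++ g (τ (π' 2)) ++ g (τ (π' 3)) := by
    rw [hflat, flatMap_filter' idx (fun l => decide (∃ i, τ i = l)) g hg0, hfilter]
    simp [List.ofFn_succ, List.append_assoc]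
  have hBlen : (allB n Fs).length + N = n := by
    rw [allB_length, hsumE, he]
  have hTPQ : TPQ n N (allB n Fs)
      (g (τ (π' 0)) ++ g (τ (π' 1)) ++ g (τ (π' 2)) ++ g (τ (π' 3))) := by
    refine ⟨1, fun L hL hlen => ?_⟩
    rw [one_mul]
    refine allY_pos Fs hgood L ?_ ?_
    · rw [hall]
      exact hL
    · rw [hlen, hsumE]
      omega
  obtain ⟨π'', Y'', hSE, hT4, hN1, hN2⟩ := arrange (fun i => g (τ (π' i))) hTPQ (by
    simp only [hglen, hrrτ]
    rw [Equiv.sum_comp π' r, hr])
  simp only [hglen, hrrτ] at hN1 hN2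
  let π : Equiv.Perm (Fin 4) := π''.trans π'
  have hπ : ∀ i, π i = π' (π'' i) := fun i => rfl
  let Y : Fin 4 → List ℝ[X] := fun i => Y'' (π'.symm i)
  have hYSE : ∀ i, SE (Y i) (Yv n (fl (τ i))) := by
    intro i
    have h1 := hSE (π'.symm i)
    simp only [Equiv.apply_symm_apply] at h1
    exact h1.trans (SE_smul (hε _) _)
  have hYlen : ∀ i, (Y i).length = r i := by
    intro i
    rw [(hYSE i).1]
    simp only [Yv, List.length_map]
    show (T (τ i)).length = r i
    rw [hTlen, hrrτ]
  have hYπ : ∀ i, Y (π i) = Y'' (π'' i) := by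
    intro i
    show Y'' (π'.symm (π' (π'' i))) = _
    rw [Equiv.symm_apply_apply]
  set Z : List ℝ[X] := Y (π 0) ++ Y (π 1) ++ Y (π 2) ++ Y (π 3) with hZ
  rw [← hYπ 0, ← hYπ 1, ← hYπ 2, ← hYπ 3, ← hZ] at hT4
  have hZlen : Z.length = 2 * N := by
    rw [hZ]
    simp only [List.length_append, hYlen]
    have := Equiv.sum_comp π r
    rw [Fin.sum_univ_four, hr] at this
    exact this
  have hYvdeg : ∀ l, ∀ f ∈ Yv n (fl l), f.natDegree < n := by
    intro l f hf
    rw [Yv, List.mem_map] at hf
    obtain ⟨t, ht, rfl⟩ := hf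
    rw [hqf]
    refine lt_of_le_of_lt natDegree_mul_le ?_
    have ht' : t ∈ T l := ht
    show (fr (S l)).natDegree + (fr ((T l).erase t)).natDegree < n
    rw [natDegree_fr, natDegree_fr, List.length_erase_of_mem ht', hSlen, hTlen]
    have h1 : 0 < (T l).length := List.length_pos_of_mem ht'
    rw [hTlen] at h1
    have := hele l
    omega
  have hYdeg : ∀ i, ∀ f ∈ Y i, f.natDegree < n := by
    intro i f hf
    have h1 : f ∈ Submodule.span ℝ {f | f ∈ Yv n (fl (τ i))} := by
      rw [← (hYSE i).2]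
      exact Submodule.subset_span hf
    have h2 : Submodule.span ℝ {f | f ∈ Yv n (fl (τ i))} ≤ degreeLT ℝ n := by
      rw [Submodule.span_le]
      intro f hf
      rw [SetLike.mem_coe, mem_degreeLT]
      exact lt_of_le_of_lt degree_le_natDegree (by exact_mod_cast hYvdeg _ f hf)
    have h3 := h2 h1
    rw [mem_degreeLT] at h3
    rcases eq_or_ne f 0 with h0 | h0
    · rw [h0, natDegree_zero]
      omega
    · rw [degree_eq_natDegree h0] at h3
      exact_mod_cast h3
  have hZdeg : ∀ f ∈ Z, f.natDegree < n := by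
    intro f hf
    simp only [hZ, List.mem_append] at hf
    rcases hf with ((hf | hf) | hf) | hf
    · exact hYdeg _ f hf
    · exact hYdeg _ f hf
    · exact hYdeg _ f hf
    · exact hYdeg _ f hf
  have hpE : ∀ l, qf n (fl l) * fr (fl l).T = fr ((rts n (s l) (a' l)).take (n - e l)) := by
    intro l
    rw [hqf, ← fr_perm (hperm l), fr_append]
  have hBmem : ∀ f, f ∈ allB n Fs ↔
      ∃ l, ∃ i < e l, f = X ^ i * fr ((rts n (s l) (a' l)).take (n - e l)) := by
    intro f
    rw [mem_allB]
    constructor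
    · rintro ⟨G, hG, hf⟩
      rw [List.mem_map] at hG
      obtain ⟨l, -, rfl⟩ := hG
      rw [Bv, hpE, mem_bl_iff] at hf
      exact ⟨l, hf⟩
    · rintro ⟨l, hf⟩
      refine ⟨fl l, List.mem_map.2 ⟨l, hidx_mem l, rfl⟩, ?_⟩
      rw [Bv, hpE, mem_bl_iff]
      exact hf
  have hBdeg : ∀ f ∈ allB n Fs, f.natDegree < n := by
    intro f hf
    rw [hBmem] at hf
    obtain ⟨l, i, hi, rfl⟩ := hf
    refine lt_of_le_of_lt natDegree_mul_le ?_
    rw [natDegree_X_pow, natDegree_fr, List.length_take, rts_length]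
    have := hele l
    omega
  obtain ⟨ε1, hT5⟩ := hT4
  obtain ⟨Cc, hC1, hC2⟩ := stp_of_lists Z (allB n Fs) hZlen (by omega) hZdeg hBdeg ε1 hT5
  let b : Fin m → ℕ → Fin n → ℂ := fun l i =>
    vecr n (X ^ i * fr ((rts n (s l) (a' l)).take (n - e l)))
  let y : Fin 4 → ℕ → Fin n → ℂ := fun i j => vecr n ((Y i).getD j 0)
  have hb : ∀ l, F l (e l) = Submodule.span ℂ {v | ∃ i < e l, v = b l i} := fun l =>
    F_eq_span hn (hsi l) (hane l) (hF0 l) (hFs l) (by
      have := hele l
      omega)
  have hcat : ∀ x < 2 * N, cat4 y r π x = vecr n (Z.getD x 0) := by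
    intro x hx
    have hsum : r (π 0) + r (π 1) + r (π 2) + r (π 3) = 2 * N := by
      have := Equiv.sum_comp π r
      rw [Fin.sum_univ_four, hr] at this
      exact this
    rw [cat4, hZ]
    have l1 : (Y (π 0)).length = r (π 0) := hYlen _
    have l2 : (Y (π 0) ++ Y (π 1)).length = r (π 0) + r (π 1) := by
      rw [List.length_append, hYlen, hYlen]
    have l3 : (Y (π 0) ++ Y (π 1) ++ Y (π 2)).length = r (π 0) + r (π 1) + r (π 2) := by
      rw [List.length_append, l2, hYlen]
    split_ifs with h1 h2 h3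
    · rw [List.getD_append _ _ _ _ (by rw [l3]; omega), List.getD_append _ _ _ _ (by rw [l2]; omega),
        List.getD_append _ _ _ _ (by rw [l1]; omega)]
    · rw [List.getD_append _ _ _ _ (by rw [l3]; omega), List.getD_append _ _ _ _ (by rw [l2]; omega),
        List.getD_append_right _ _ _ _ (by rw [l1]; omega), l1]
    · rw [List.getD_append _ _ _ _ (by rw [l3]; omega),
        List.getD_append_right _ _ _ _ (by rw [l2]; omega), l2]
    · rw [List.getD_append_right _ _ _ _ (by rw [l3]; omega), l3]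
  have hBE : ∀ f ∈ allB n Fs, vecr n f ∈ ⨆ l, F l (e l) := by
    intro f hf
    rw [hBmem] at hf
    obtain ⟨l, i, hi, rfl⟩ := hf
    refine Submodule.mem_iSup_of_mem l ?_
    rw [hb l]
    exact Submodule.subset_span ⟨i, hi, rfl⟩
  suffices hsuff : (∀ i, F (τ i) (e (τ i) + r i) =
        F (τ i) (e (τ i)) ⊔ Submodule.span ℂ {v | ∃ j < r i, v = y i j}) ∧
      (⨆ l, F l (e l)) ⊔ Submodule.span ℂ {v | ∃ j < N, v = cat4 y r π j} = ⊤ ∧
      (∀ j < N, cat4 y r π (N + j) - ∑ i ∈ Finset.range N, (Cc j i : ℂ) • cat4 y r π i ∈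
        ⨆ l, F l (e l)) by
    obtain ⟨g1, g2, g3⟩ := hsuff
    refine ⟨π, y, b, Cc, hb, g1, hN1, hN2, g2, g3, hC1, fun i j x => vecr_conj _ x,
      fun l i x => vecr_conj _ x, ?_⟩
    refine indep_of_span (n := n) (by simp) ?_ g2
    have h1 : (⨆ l, F l (e l)) = Submodule.span ℂ (((allB n Fs).map (vecr n)).toFinset : Set _) := by
      apply le_antisymm
      · refine iSup_le fun l => ?_
        rw [hb l, Submodule.span_le]
        rintro v ⟨i, hi, rfl⟩
        refine Submodule.subset_span ?_
        rw [List.coe_toFinset, Set.mem_setOf_eq, List.mem_map]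
        exact ⟨_, (hBmem _).2 ⟨l, i, hi, rfl⟩, rfl⟩
      · rw [Submodule.span_le]
        intro v hv
        rw [List.coe_toFinset, Set.mem_setOf_eq, List.mem_map] at hv
        obtain ⟨f, hf, rfl⟩ := hv
        exact hBE f hf
    rw [h1]
    refine (Nat.add_le_add_right (finrank_span_finset_le_card _) N).trans ?_
    have h2 := List.toFinset_card_le ((allB n Fs).map (vecr n))
    rw [List.length_map] at h2
    omega
  refine ⟨?_, ?_, ?_⟩
  · intro i
    have h1 := F_sup hn (hsi (τ i)) (hane (τ i)) (hF0 (τ i)) (hFs (τ i))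
      (e := e (τ i)) (r := rr (τ i)) (hele (τ i)) (T (τ i)) (hTp (τ i))
    rw [hrrτ] at h1
    rw [h1]
    congr 1
    have h2 : {v | ∃ j < r i, v = y i j} = {v | ∃ f ∈ Y i, v = vecr n f} := by
      ext v
      constructor
      · rintro ⟨j, hj, rfl⟩
        rw [← hYlen i] at hj
        refine ⟨(Y i)[j], List.getElem_mem _, ?_⟩
        show vecr n ((Y i).getD j 0) = _
        rw [List.getD_eq_getElem _ _ hj]
      · rintro ⟨f, hf, rfl⟩
        obtain ⟨j, hj, rfl⟩ := List.mem_iff_getElem.1 hf
        refine ⟨j, by rwa [← hYlen i], ?_⟩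
        show _ = vecr n ((Y i).getD j 0)
        rw [List.getD_eq_getElem _ _ hj]
    rw [h2, span_vecr_eq (hYSE i)]
    congr 1
    ext v
    constructor
    · rintro ⟨t, ht, rfl⟩
      refine ⟨qf n (fl (τ i)) * fr ((fl (τ i)).T.erase t), ?_, ?_⟩
      · rw [Yv, List.mem_map]
        exact ⟨t, ht, rfl⟩
      · rw [hqf]
        show _ = vecr n (fr ((rts n (s (τ i)) (a' (τ i))).take (n - (e (τ i) + rr (τ i)))) * _)
        rw [hrrτ]
    · rintro ⟨f, hf, rfl⟩
      rw [Yv, List.mem_map] at hf
      obtain ⟨t, ht, rfl⟩ := hf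
      refine ⟨t, ht, ?_⟩
      rw [hqf]
      show vecr n (fr ((rts n (s (τ i)) (a' (τ i))).take (n - (e (τ i) + rr (τ i)))) * _) = _
      rw [hrrτ]
  · -- everything is spanned
    rw [eq_top_iff]
    intro v _
    have h1 := hT5 (Z.take N) (List.take_sublist _ _) (by
      rw [List.length_take, hZlen]
      omega)
    have h2 : vol n (W (Z.take N ++ allB n Fs)) ≠ 0 := by
      intro h
      rw [h, mul_zero] at h1
      exact lt_irrefl _ h1
    have hspan := span_of_vol (Z.take N ++ allB n Fs) (by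
        rw [List.length_append, List.length_take, hZlen]
        omega) h2 (by
        intro f hf
        rw [List.mem_append] at hf
        rcases hf with hf | hf
        · exact hZdeg f (List.mem_of_mem_take hf)
        · exact hBdeg f hf)
      (((⨆ l, F l (e l)) ⊔ Submodule.span ℂ {v | ∃ j < N, v = cat4 y r π j}).map (fp n)) (by
        intro f hf
        rw [List.mem_append] at hf
        rcases hf with hf | hf
        · obtain ⟨x, hx, rfl⟩ := List.mem_iff_getElem.1 hf
          rw [List.length_take, hZlen] at hx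
          have hxN : x < N := by omega
          rw [List.getElem_take, ← List.getD_eq_getElem (d := 0),
            ← fp_vecr (n := n) (hZdeg _ (by
              rw [List.getD_eq_getElem _ _ (by rw [hZlen]; omega)]
              exact List.getElem_mem _))]
          refine Submodule.mem_map_of_mem (Submodule.mem_sup_right (Submodule.subset_span ?_))
          exact ⟨x, hxN, (hcat x (by omega)).symm⟩
        · rw [← fp_vecr (n := n) (hBdeg f hf)]
          exact Submodule.mem_map_of_mem (Submodule.mem_sup_left (hBE f hf)))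
    obtain ⟨w, hw, hwv⟩ := hspan (fp_degree n v)
    rwa [← fp_injective n hwv]
  · intro j hj
    have h1 := hC2 j hj
    have h2 : Submodule.span ℝ {f | f ∈ allB n Fs} ≤
        ((⨆ l, F l (e l)).restrictScalars ℝ).comap (vecr n) := by
      rw [Submodule.span_le]
      intro f hf
      exact hBE f hf
    have h3 := h2 h1
    rw [Submodule.mem_comap, map_sub, map_sum, Submodule.restrictScalars_mem] at h3
    have h4 : cat4 y r π (N + j) - ∑ i ∈ Finset.range N, (Cc j i : ℂ) • cat4 y r π i =
        vecr n (Z.getD (N + j) 0) - ∑ i ∈ Finset.range N, vecr n (Cc j i • Z.getD i 0) := by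
      rw [hcat (N + j) (by omega)]
      congr 1
      refine Finset.sum_congr rfl fun i hi => ?_
      rw [Finset.mem_range] at hi
      rw [hcat i (by omega), map_smul]
      rfl
    rw [h4]
    exact h3

end

end Pool.TPR
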