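import Pool.Agent.Helper53.TPR.Pencil

/-! The pencil with a zero block in the first `d` columns. -/

namespace Pool.TPR

open Matrix Polynomial Finset

/-- the weights: the first `d` columns have weight `0` in the first `h` rows and `1` below -/
def wu {R : Type*} [CommRing R] (h d p : ℕ) (σ x : R) (i j : ℕ) : R :=
  if j < d then (if i < h then 0 else 1) else wt h p σ x i (j - d)

/-- the pencil -/
def FU {R : Type*} [CommRing R] (N h d p : ℕ) (σ : R) (A : ℕ → ℕ → R) (x : R) : R :=
  dt N (fun i j => wu h d p σ x i j * A i j)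

lemma map_FU {R S : Type*} [CommRing R] [CommRing S] (f : R →+* S) (N h d p : ℕ) (σ : R)
    (A : ℕ → ℕ → R) (x : R) :
    f (FU N h d p σ A x) = FU N h d p (f σ) (fun i j => f (A i j)) (f x) := by
  rw [FU, map_dt, FU]
  refine dt_congr fun i _ j _ => ?_
  rw [map_mul]
  congr 1
  rw [wu, wu, wt, wt]
  split_ifs <;> simp

/-- elimination of one column -/
noncomputable def el (h : ℕ) (A : ℕ → ℕ → ℝ) : ℕ → ℕ → ℝ := fun i j =>
  if i < h then A i (j + 1) else A (i + 1) (j + 1) - A (i + 1) 0 / A h 0 * A h (j + 1)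

lemma exists_threshold (s h : ℕ) (r : ℕ → ℕ) (hr : ∀ i j, i < j → j < s → r i < r j) :
    ∃ t ≤ s, (∀ i < t, r i < h) ∧ ∀ i, t ≤ i → i < s → h ≤ r i := by
  classical
  by_cases hex : ∃ i, i < s ∧ h ≤ r i
  · refine ⟨Nat.find hex, (Nat.find_spec hex).1.le, ?_, ?_⟩
    · intro i hi
      have h1 := Nat.find_min hex hi
      have h2 := (Nat.find_spec hex).1
      by_contra hc
      exact h1 ⟨by omega, by omega⟩
    · intro i hi hi'
      rcases Nat.eq_or_lt_of_le hi with h1 | h1
      · rw [← h1]
        exact (Nat.find_spec hex).2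
      · exact (Nat.find_spec hex).2.trans (hr _ _ h1 hi').le
  · refine ⟨s, le_rfl, ?_, ?_⟩
    · intro i hi
      by_contra hc
      exact hex ⟨i, hi, by omega⟩
    · intro i hi hi'
      omega

lemma el_pivot (n h : ℕ) (hh : h ≤ n) (w : ℕ → ℕ → ℝ) (A : ℕ → ℕ → ℝ) (h0 : A h 0 ≠ 0)
    (w0 : ∀ i < h, w i 0 = 0) (w1 : ∀ i, h ≤ i → w i 0 = 1)
    (w2 : ∀ i j, h ≤ i → w i j = w h j) :
    dt (n + 1) (fun i j => w i j * A i j) = (-1) ^ h * A h 0 *
      dt n (fun i j => (if i < h then w i (j + 1) else w h (j + 1)) * el h A i j) := by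
  rw [dt_pivot n h hh _ (by
    show w h 0 * A h 0 ≠ 0
    rw [w1 h le_rfl, one_mul]
    exact h0)]
  rw [w1 h le_rfl, one_mul]
  congr 1
  refine dt_congr fun i _ j _ => ?_
  rw [el]
  by_cases hi : i < h
  · rw [if_pos hi, if_pos hi, if_pos hi, w0 i hi]
    ring
  · rw [if_neg hi, if_neg hi, if_neg hi, w1 (i + 1) (by omega), w2 (i + 1) (j + 1) (by omega)]
    field_simp

/-- elimination preserves strict total positivity -/
lemma STP.el {N h : ℕ} {A : ℕ → ℕ → ℝ} (hA : STP (N + 1) A) (hh : h ≤ N) : STP N (el h A) := by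
  intro s r c hr hc hr' hc'
  obtain ⟨t, hts, ht1, ht2⟩ := exists_threshold s h r hr
  set r' : ℕ → ℕ := fun i => if i < t then r i else if i = t then h else r (i - 1) + 1 with hr'd
  set c' : ℕ → ℕ := fun j => if j = 0 then 0 else c (j - 1) + 1 with hc'd
  have hb : STP (s + 1) (fun i j => A (r' i) (c' j)) := by
    refine hA.sub ?_ ?_ ?_ ?_
    · intro i j hij hj
      simp only [hr'd]
      rcases lt_trichotomy j t with h1 | h1 | h1
      · rw [if_pos (by omega), if_pos h1]
        exact hr i j hij (by omega)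
      · subst h1
        rw [if_pos hij, if_neg (lt_irrefl _), if_pos rfl]
        exact ht1 i hij
      · rw [if_neg (by omega : ¬ j < t), if_neg (by omega : ¬ j = t)]
        rcases lt_trichotomy i t with h2 | h2 | h2
        · rw [if_pos h2]
          have := hr i (j - 1) (by omega) (by omega)
          omega
        · subst h2
          rw [if_neg (lt_irrefl _), if_pos rfl]
          have := ht2 (j - 1) (by omega) (by omega)
          omega
        · rw [if_neg (by omega), if_neg (by omega)]
          have := hr (i - 1) (j - 1) (by omega) (by omega)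
          omega
    · intro i j hij hj
      simp only [hc'd]
      rw [if_neg (by omega : ¬ j = 0)]
      split_ifs with h1
      · omega
      · have := hc (i - 1) (j - 1) (by omega) (by omega)
        omega
    · intro i hi
      simp only [hr'd]
      split_ifs with h1 h2
      · have := hr' i (by omega)
        omega
      · omega
      · have := hr' (i - 1) (by omega)
        omega
    · intro i hi
      simp only [hc'd]
      split_ifs with h1
      · omega
      · have := hc' (i - 1) (by omega)
        omega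
  have h1 := zero_block (s + 1) t 1 _ hb (by omega)
  rw [mul_one] at h1
  have hA0 : 0 < A h 0 := hA.entry (by omega) (by omega)
  have hrt : r' t = h := by simp [hr'd]
  have hc0 : c' 0 = 0 := by simp [hc'd]
  have h2 : dt (s + 1) (zb t 1 (fun i j => A (r' i) (c' j))) =
      (-1) ^ t * A h 0 * dt s (fun i j => Pool.TPR.el h A (r i) (c j)) := by
    have h3 := el_pivot s t hts (fun i j => if i < t ∧ j < 1 then 0 else 1)
      (fun i j => A (r' i) (c' j)) (by
        simp only [hrt, hc0]
        exact hA0.ne')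
      (fun i hi => by simp [hi]) (fun i hi => by simp [not_lt.2 hi])
      (fun i j hi => by simp [not_lt.2 hi])
    simp only [hrt, hc0] at h3
    have h4 : dt (s + 1) (zb t 1 (fun i j => A (r' i) (c' j))) =
        dt (s + 1) (fun i j => (if i < t ∧ j < 1 then 0 else 1) * A (r' i) (c' j)) :=
      dt_congr fun i _ j _ => by
        rw [zb]
        split_ifs <;> simp
    rw [h4, h3]
    congr 1
    refine dt_congr fun i hi j hj => ?_
    have e1 : c' (j + 1) = c j + 1 := by simp [hc'd]
    by_cases hit : i < t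
    · have e2 : r' i = r i := by simp [hr'd, hit]
      have e3 : r i < h := ht1 i hit
      simp [Pool.TPR.el, hit, e1, e2, e3]
    · have e2 : r' (i + 1) = r i + 1 := by
        simp only [hr'd]
        rw [if_neg (by omega), if_neg (by omega)]
        simp
      have e3 : ¬ r i < h := by
        have := ht2 i (by omega) hi
        omega
      simp [Pool.TPR.el, hit, e1, e2, e3, hrt, hc0]
  rw [h2] at h1
  have h5 : ((-1 : ℝ)) ^ t * (-1) ^ t = 1 := by
    rw [← mul_pow]
    norm_num
  have h6 : 0 < A h 0 * dt s (fun i j => Pool.TPR.el h A (r i) (c j)) := by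
    calc (0 : ℝ) < _ := h1
      _ = _ := by linear_combination (A h 0 * dt s (fun i j => Pool.TPR.el h A (r i) (c j))) * h5
  exact pos_of_mul_pos_right h6 hA0.le

/-- **Theorem R** for the pencil with a zero block -/
theorem rootsU (h p q : ℕ) (hh : h ≤ p) (d : ℕ) : ∀ (A : ℕ → ℕ → ℝ), STP (d + (p + q)) A →
    ∃ α : ℕ → ℝ, (∀ i < min h q, 0 < α i) ∧ (∀ i, i + 1 < min h q → α i < α (i + 1)) ∧
      ∀ x, FU (d + (p + q)) h d p ((-1) ^ (p + h)) A x =
        dt (d + (p + q)) (zb h d A) *
          (x ^ (q - min h q) * ∏ i ∈ range (min h q), (x - α i)) := by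
  induction d with
  | zero =>
    intro A hA
    rw [zero_add] at hA ⊢
    obtain ⟨α, h1, h2, h3⟩ := roots h p q hh A hA
    refine ⟨α, h1, h2, fun x => ?_⟩
    have e1 : dt (p + q) (zb h 0 A) = dt (p + q) A := dt_congr fun i _ j _ => by simp [zb]
    rw [e1, ← h3, FU, FF]
    refine dt_congr fun i _ j _ => ?_
    simp [wu]
  | succ d ih =>
    intro A hA
    have e0 : d + 1 + (p + q) = (d + (p + q)) + 1 := by omega
    rw [e0] at hA ⊢
    have hhn : h ≤ d + (p + q) := by omega
    obtain ⟨α, h1, h2, h3⟩ := ih (el h A) (hA.el hhn)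
    refine ⟨α, h1, h2, fun x => ?_⟩
    have hA0 : A h 0 ≠ 0 := (hA.entry (by omega) (by omega)).ne'
    have e1 : dt (d + (p + q) + 1) (zb h (d + 1) A) =
        (-1) ^ h * A h 0 * dt (d + (p + q)) (zb h d (el h A)) := by
      have := el_pivot (d + (p + q)) h hhn (fun i j => if i < h ∧ j < d + 1 then 0 else 1) A hA0
        (fun i hi => by simp [hi]) (fun i hi => by simp [not_lt.2 hi])
        (fun i j hi => by simp [not_lt.2 hi])
      have h4 : dt (d + (p + q) + 1) (zb h (d + 1) A) =
          dt (d + (p + q) + 1) (fun i j => (if i < h ∧ j < d + 1 then 0 else 1) * A i j) :=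
        dt_congr fun i _ j _ => by
          rw [zb]
          split_ifs <;> simp
      rw [h4, this]
      congr 1
      refine dt_congr fun i _ j _ => ?_
      rw [zb]
      by_cases hi : i < h <;> by_cases hj : j < d <;> simp [hi, hj]
    have e2 : FU (d + (p + q) + 1) h (d + 1) p ((-1) ^ (p + h)) A x =
        (-1) ^ h * A h 0 * FU (d + (p + q)) h d p ((-1) ^ (p + h)) (el h A) x := by
      have := el_pivot (d + (p + q)) h hhn (fun i j => wu h (d + 1) p ((-1) ^ (p + h)) x i j) A hA0
        (fun i hi => by simp [wu, hi]) (fun i hi => by simp [wu, not_lt.2 hi])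
        (fun i j hi => by simp [wu, wt, not_lt.2 hi])
      rw [FU, this, FU]
      congr 1
      refine dt_congr fun i _ j _ => ?_
      congr 1
      have e3 : j + 1 - (d + 1) = j - d := by omega
      by_cases hi : i < h <;> by_cases hj : j < d <;> simp [wu, wt, hi, hj, e3]
    rw [e1, e2, h3]
    ring

end Pool.TPR
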