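import Mathlib

/-! Strictly totally positive matrices: the Desnanot-Jacobi identity and minors of a matrix with a
zero block in a corner. -/

namespace Pool.TPR

open Matrix

/-- the determinant of the upper left `n × n` block of an infinite matrix -/
def dt {R : Type*} [CommRing R] (n : ℕ) (A : ℕ → ℕ → R) : R :=
  Matrix.det (Matrix.of fun i j : Fin n => A i j)

section DJ

variable {R : Type*} [CommRing R]

theorem dj_block_aux {n : Type*} [Fintype n] [DecidableEq n]
    (M : Matrix (Fin 2 ⊕ n) (Fin 2 ⊕ n) R) :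
    M.det * (adjugate M).toBlocks₁₁.det = M.det * (M.det * M.toBlocks₂₂.det) := by
  set A := M.toBlocks₁₁
  set B := M.toBlocks₁₂
  set C := M.toBlocks₂₁
  set D := M.toBlocks₂₂
  set P := (adjugate M).toBlocks₁₁
  set S := (adjugate M).toBlocks₂₁
  have hM : M = fromBlocks A B C D := (fromBlocks_toBlocks M).symm
  have hadj : adjugate M = fromBlocks P (adjugate M).toBlocks₁₂ S (adjugate M).toBlocks₂₂ :=
    (fromBlocks_toBlocks _).symm
  have h1 : M * adjugate M = M.det • (1 : Matrix (Fin 2 ⊕ n) (Fin 2 ⊕ n) R) := mul_adjugate M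
  rw [hadj] at h1
  nth_rewrite 1 [hM] at h1
  rw [fromBlocks_multiply, ← fromBlocks_one, fromBlocks_smul, fromBlocks_inj] at h1
  obtain ⟨h11, -, h21, -⟩ := h1
  have h2 : M * fromBlocks P 0 S 1 = fromBlocks (M.det • (1 : Matrix (Fin 2) (Fin 2) R)) B 0 D := by
    nth_rewrite 1 [hM]
    rw [fromBlocks_multiply, h11, h21]
    simp
  have h3 := congrArg det h2
  rw [det_mul, det_fromBlocks_zero₁₂, det_fromBlocks_zero₂₁, det_one, mul_one, det_smul, det_one,
    mul_one, Fintype.card_fin] at h3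
  rw [h3]
  ring

/-- Jacobi's complementary minor identity, `2 × 2` minors of the adjugate -/
theorem dj_block {n : Type*} [Fintype n] [DecidableEq n]
    (M : Matrix (Fin 2 ⊕ n) (Fin 2 ⊕ n) R) :
    (adjugate M).toBlocks₁₁.det = M.det * M.toBlocks₂₂.det := by
  let A' := mvPolynomialX (Fin 2 ⊕ n) (Fin 2 ⊕ n) ℤ
  have h : (adjugate A').toBlocks₁₁.det = A'.det * A'.toBlocks₂₂.det :=
    mul_left_cancel₀ (det_mvPolynomialX_ne_zero (Fin 2 ⊕ n) ℤ) (dj_block_aux A')
  let f := MvPolynomial.aeval (R := ℤ) (fun p : (Fin 2 ⊕ n) × (Fin 2 ⊕ n) => M p.1 p.2)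
  have hM : f.mapMatrix A' = M := mvPolynomialX_mapMatrix_aeval ℤ M
  have h1 : (adjugate M).toBlocks₁₁ = f.mapMatrix ((adjugate A').toBlocks₁₁) := by
    rw [← hM, ← AlgHom.map_adjugate]
    rfl
  have h2 : M.toBlocks₂₂ = f.mapMatrix (A'.toBlocks₂₂) := by
    nth_rewrite 1 [← hM]
    rfl
  rw [h1, ← AlgHom.map_det, h, map_mul, AlgHom.map_det, AlgHom.map_det, hM, ← h2]

/-- Desnanot-Jacobi (Dodgson condensation) -/
theorem desnanot (m : ℕ) (A : ℕ → ℕ → R) :
    dt (m + 2) A * dt m (fun i j => A (i + 1) (j + 1)) =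
    dt (m + 1) A * dt (m + 1) (fun i j => A (i + 1) (j + 1)) -
      dt (m + 1) (fun i j => A (i + 1) j) * dt (m + 1) (fun i j => A i (j + 1)) := by
  simp only [dt]
  set B : Matrix (Fin (m + 2)) (Fin (m + 2)) R := Matrix.of fun i j => A i j with hB
  let f : Fin 2 ⊕ Fin m → Fin (m + 2) := Sum.elim ![0, Fin.last (m + 1)] (fun i => i.succ.castSucc)
  have hf : Function.Bijective f := by
    rw [Fintype.bijective_iff_injective_and_card]
    constructor
    · rintro (x | x) (y | y) h
      · fin_cases x <;> fin_cases y <;> simp [f, Fin.ext_iff] at h ⊢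
      · exfalso
        have hy := y.2
        fin_cases x <;> simp [f, Fin.ext_iff] at h
        omega
      · exfalso
        have hx := x.2
        fin_cases y <;> simp [f, Fin.ext_iff] at h
        omega
      · simp [f, Fin.ext_iff] at h
        congr 1
        ext
        exact h
    · simp
      omega
  let e : Fin 2 ⊕ Fin m ≃ Fin (m + 2) := Equiv.ofBijective f hf
  have he0 : e (Sum.inl 0) = 0 := rfl
  have he1 : e (Sum.inl 1) = Fin.last (m + 1) := rfl
  have her : ∀ i, e (Sum.inr i) = i.succ.castSucc := fun i => rfl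
  have h := dj_block (B.submatrix e e)
  rw [det_submatrix_equiv_self, adjugate_submatrix_equiv_self, det_fin_two] at h
  have t22 : (B.submatrix e e).toBlocks₂₂ = Matrix.of fun i j : Fin m => A (i + 1) (j + 1) := by
    ext i j
    simp [toBlocks₂₂, hB, her]
  rw [t22] at h
  simp only [toBlocks₁₁, of_apply, submatrix_apply, he0, he1] at h
  have a00 : adjugate B 0 0 = Matrix.det (Matrix.of fun i j : Fin (m + 1) => A (i + 1) (j + 1)) := by
    rw [adjugate_fin_succ_eq_det_submatrix]
    simp only [Fin.val_zero, add_zero, pow_zero, one_mul]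
    congr 1
  have all : adjugate B (Fin.last (m + 1)) (Fin.last (m + 1)) =
      Matrix.det (Matrix.of fun i j : Fin (m + 1) => A i j) := by
    rw [adjugate_fin_succ_eq_det_submatrix]
    rw [← two_mul, pow_mul]
    norm_num
    congr 1
  have a0l : adjugate B 0 (Fin.last (m + 1)) =
      (-1) ^ (m + 1) * Matrix.det (Matrix.of fun i j : Fin (m + 1) => A i (j + 1)) := by
    rw [adjugate_fin_succ_eq_det_submatrix]
    simp only [Fin.val_zero, add_zero, Fin.val_last]
    congr 2
    ext i j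
    simp [hB]
  have al0 : adjugate B (Fin.last (m + 1)) 0 =
      (-1) ^ (m + 1) * Matrix.det (Matrix.of fun i j : Fin (m + 1) => A (i + 1) j) := by
    rw [adjugate_fin_succ_eq_det_submatrix]
    simp only [Fin.val_zero, zero_add, Fin.val_last]
    congr 2
    ext i j
    simp [hB]
  rw [a00, all, a0l, al0] at h
  rw [← h]
  have hs : ((-1 : R)) ^ (m + 1) * (-1) ^ (m + 1) = 1 := by
    rw [← mul_pow]
    norm_num
  linear_combination (-(Matrix.det (Matrix.of fun i j : Fin (m + 1) => A i (j + 1))) *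
    Matrix.det (Matrix.of fun i j : Fin (m + 1) => A (i + 1) j)) * hs

lemma dt_congr {n : ℕ} {A B : ℕ → ℕ → R} (h : ∀ i < n, ∀ j < n, A i j = B i j) :
    dt n A = dt n B := by
  rw [dt, dt]
  congr 1
  ext i j
  exact h i i.2 j j.2

lemma dt_zero (A : ℕ → ℕ → R) : dt 0 A = 1 := by
  rw [dt]
  exact Matrix.det_isEmpty

lemma dt_one (A : ℕ → ℕ → R) : dt 1 A = A 0 0 := by
  rw [dt, Matrix.det_unique]
  rfl

lemma dt_transpose (n : ℕ) (A : ℕ → ℕ → R) : dt n (fun i j => A j i) = dt n A := by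
  rw [dt, dt, ← Matrix.det_transpose]
  rfl

lemma dt_rev (n : ℕ) (A : ℕ → ℕ → R) :
    dt n (fun i j => A (n - 1 - i) (n - 1 - j)) = dt n A := by
  rw [dt, dt, ← Matrix.det_submatrix_equiv_self (Fin.revPerm) (Matrix.of fun i j : Fin n => A i j)]
  congr 1
  ext i j
  simp only [Matrix.of_apply, Matrix.submatrix_apply, Fin.revPerm_apply, Fin.val_rev]
  congr 1 <;> omega

lemma dt_mul_row (n : ℕ) (v : ℕ → R) (A : ℕ → ℕ → R) :
    dt n (fun i j => v i * A i j) = (∏ i ∈ Finset.range n, v i) * dt n A := by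
  rw [dt, dt, ← Fin.prod_univ_eq_prod_range]
  exact Matrix.det_mul_column (fun i : Fin n => v i) (Matrix.of fun i j : Fin n => A i j)

lemma dt_mul_col (n : ℕ) (v : ℕ → R) (A : ℕ → ℕ → R) :
    dt n (fun i j => v j * A i j) = (∏ i ∈ Finset.range n, v i) * dt n A := by
  rw [dt, dt, ← Fin.prod_univ_eq_prod_range]
  exact Matrix.det_mul_row (fun i : Fin n => v i) (Matrix.of fun i j : Fin n => A i j)

/-- elimination of the first column, with pivot in row `h` -/
lemma dt_pivot {K : Type*} [Field K] (n h : ℕ) (hh : h ≤ n) (B : ℕ → ℕ → K) (h0 : B h 0 ≠ 0) :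
    dt (n + 1) B = (-1) ^ h * B h 0 * dt n (fun i j => if i < h then
      B i (j + 1) - B i 0 / B h 0 * B h (j + 1) else
      B (i + 1) (j + 1) - B (i + 1) 0 / B h 0 * B h (j + 1)) := by
  let k : Fin (n + 1) := ⟨h, by omega⟩
  let A : Matrix (Fin (n + 1)) (Fin (n + 1)) K := Matrix.of fun i j =>
    if i = k then B i j else B i j - B i 0 / B h 0 * B h j
  have h1 : A.det = (Matrix.of fun i j : Fin (n + 1) => B i j).det := by
    refine Matrix.det_eq_of_forall_row_eq_smul_add_const
      (fun i => if i = k then 0 else -(B i 0 / B h 0)) k (by simp) ?_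
    intro i j
    simp only [A, Matrix.of_apply]
    by_cases hi : i = k
    · simp [hi]
    · simp only [hi, if_false]
      show B i j - B i 0 / B h 0 * B h j = B i j + -(B i 0 / B h 0) * B h j
      ring
  rw [dt, ← h1, Matrix.det_succ_column_zero, Finset.sum_eq_single k]
  · have h2 : A k 0 = B h 0 := by
      simp [A, k]
    rw [h2, dt]
    congr 2
    ext i j
    simp only [Matrix.submatrix_apply, Matrix.of_apply, A]
    rw [if_neg (Fin.succAbove_ne k i)]
    by_cases hi : (i : ℕ) < h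
    · rw [if_pos hi, Fin.succAbove_of_castSucc_lt _ _ (by
        rw [Fin.lt_def]
        exact hi)]
      simp
    · rw [if_neg hi, Fin.succAbove_of_le_castSucc _ _ (by
        rw [Fin.le_def]
        show h ≤ (i : ℕ)
        omega)]
      simp
  · intro i _ hi
    have h3 : A i 0 = 0 := by
      simp only [A, Matrix.of_apply, if_neg hi]
      show B i 0 - B i 0 / B h 0 * B h 0 = 0
      rw [div_mul_cancel₀ _ h0, sub_self]
    rw [h3]
    ring
  · intro hk
    exact absurd (Finset.mem_univ k) hk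

/-- a large zero block -/
lemma dt_zero_block {n h d : ℕ} (hn : n < h + d) (hh : h ≤ n) (hd : d ≤ n) {A : ℕ → ℕ → R}
    (hA : ∀ i < h, ∀ j < d, A i j = 0) : dt n A = 0 := by
  rw [dt, Matrix.det_apply']
  refine Finset.sum_eq_zero fun σ _ => ?_
  have hex : ∃ j : Fin n, (j : ℕ) < d ∧ ((σ j : Fin n) : ℕ) < h := by
    by_contra hc
    push Not at hc
    let f : Fin d → Fin (n - h) := fun j =>
      ⟨((σ (Fin.castLE hd j) : Fin n) : ℕ) - h, by
        have := hc (Fin.castLE hd j) j.2
        have h2 := (σ (Fin.castLE hd j)).2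
        omega⟩
    have hf : Function.Injective f := by
      intro x y hxy
      simp only [f, Fin.mk.injEq] at hxy
      have h1 := hc (Fin.castLE hd x) x.2
      have h2 := hc (Fin.castLE hd y) y.2
      have h3 : σ (Fin.castLE hd x) = σ (Fin.castLE hd y) := by
        apply Fin.ext
        omega
      have h4 := σ.injective h3
      exact Fin.castLE_injective hd h4
    have := Fintype.card_le_of_injective f hf
    rw [Fintype.card_fin, Fintype.card_fin] at this
    omega
  obtain ⟨j, hj, hj'⟩ := hex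
  rw [Finset.prod_eq_zero (Finset.mem_univ j), mul_zero]
  exact hA _ hj' _ hj

end DJ

/-- strictly totally positive: all minors of the upper left `N × N` block are positive -/
def STP (N : ℕ) (A : ℕ → ℕ → ℝ) : Prop :=
  ∀ (s : ℕ) (r c : ℕ → ℕ), (∀ i j, i < j → j < s → r i < r j) →
    (∀ i j, i < j → j < s → c i < c j) → (∀ i < s, r i < N) → (∀ i < s, c i < N) →
    0 < dt s (fun i j => A (r i) (c j))

lemma STP.sub {N : ℕ} {A : ℕ → ℕ → ℝ} (h : STP N A) {n : ℕ} {r c : ℕ → ℕ}
    (hr : ∀ i j, i < j → j < n → r i < r j) (hc : ∀ i j, i < j → j < n → c i < c j)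
    (hr' : ∀ i < n, r i < N) (hc' : ∀ i < n, c i < N) : STP n (fun i j => A (r i) (c j)) := by
  intro s r' c' h1 h2 h3 h4
  exact h s (fun i => r (r' i)) (fun i => c (c' i))
    (fun i j hij hj => hr _ _ (h1 i j hij hj) (h3 j hj))
    (fun i j hij hj => hc _ _ (h2 i j hij hj) (h4 j hj))
    (fun i hi => hr' _ (h3 i hi)) (fun i hi => hc' _ (h4 i hi))

lemma STP.pos {N : ℕ} {A : ℕ → ℕ → ℝ} (h : STP N A) : 0 < dt N A :=
  h N id id (fun _ _ h _ => h) (fun _ _ h _ => h) (fun _ h => h) (fun _ h => h)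

lemma STP.entry {N : ℕ} {A : ℕ → ℕ → ℝ} (h : STP N A) {i j : ℕ} (hi : i < N) (hj : j < N) :
    0 < A i j := by
  have := h 1 (fun _ => i) (fun _ => j) (fun _ _ h1 h2 => by omega) (fun _ _ h1 h2 => by omega)
    (fun _ _ => hi) (fun _ _ => hj)
  rwa [dt_one] at this

lemma STP.mono {N n : ℕ} {A : ℕ → ℕ → ℝ} (h : STP N A) (hn : n ≤ N) : STP n A :=
  h.sub (r := id) (c := id) (fun _ _ h _ => h) (fun _ _ h _ => h) (fun _ h => lt_of_lt_of_le h hn)
    (fun _ h => lt_of_lt_of_le h hn)

lemma STP.ss {N : ℕ} {A : ℕ → ℕ → ℝ} (h : STP (N + 1) A) :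
    STP N (fun i j => A (i + 1) (j + 1)) :=
  h.sub (r := fun i => i + 1) (c := fun i => i + 1) (fun _ _ h _ => Nat.succ_lt_succ h)
    (fun _ _ h _ => Nat.succ_lt_succ h) (fun _ h => Nat.succ_lt_succ h)
    (fun _ h => Nat.succ_lt_succ h)

lemma STP.si {N : ℕ} {A : ℕ → ℕ → ℝ} (h : STP (N + 1) A) :
    STP N (fun i j => A (i + 1) j) :=
  h.sub (r := fun i => i + 1) (c := id) (fun _ _ h _ => Nat.succ_lt_succ h)
    (fun _ _ h _ => h) (fun _ h => Nat.succ_lt_succ h) (fun _ h => h.trans (Nat.lt_succ_self N))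

lemma STP.is {N : ℕ} {A : ℕ → ℕ → ℝ} (h : STP (N + 1) A) :
    STP N (fun i j => A i (j + 1)) :=
  h.sub (r := id) (c := fun i => i + 1) (fun _ _ h _ => h) (fun _ _ h _ => Nat.succ_lt_succ h)
    (fun _ h => h.trans (Nat.lt_succ_self N)) (fun _ h => Nat.succ_lt_succ h)

lemma STP.transpose {N : ℕ} {A : ℕ → ℕ → ℝ} (h : STP N A) : STP N (fun i j => A j i) := by
  intro s r c h1 h2 h3 h4
  have := h s c r h2 h1 h4 h3
  rw [← dt_transpose] at this
  exact this

lemma STP.rev {N : ℕ} {A : ℕ → ℕ → ℝ} (h : STP N A) :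
    STP N (fun i j => A (N - 1 - i) (N - 1 - j)) := by
  intro s r c h1 h2 h3 h4
  have := h s (fun i => N - 1 - r (s - 1 - i)) (fun i => N - 1 - c (s - 1 - i))
    (fun i j hij hj => by
      have e1 := h1 (s - 1 - j) (s - 1 - i) (by omega) (by omega)
      have e2 := h3 (s - 1 - i) (by omega)
      show N - 1 - r (s - 1 - i) < N - 1 - r (s - 1 - j)
      omega)
    (fun i j hij hj => by
      have e1 := h2 (s - 1 - j) (s - 1 - i) (by omega) (by omega)
      have e2 := h4 (s - 1 - i) (by omega)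
      show N - 1 - c (s - 1 - i) < N - 1 - c (s - 1 - j)
      omega)
    (fun i hi => by
      have e2 := h3 (s - 1 - i) (by omega)
      show N - 1 - r (s - 1 - i) < N
      omega)
    (fun i hi => by
      have e2 := h4 (s - 1 - i) (by omega)
      show N - 1 - c (s - 1 - i) < N
      omega)
  rw [← dt_rev] at this
  refine lt_of_lt_of_eq this (dt_congr fun i hi j hj => ?_)
  have e1 : s - 1 - (s - 1 - i) = i := by omega
  have e2 : s - 1 - (s - 1 - j) = j := by omega
  simp only [e1, e2]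

/-- a strictly totally positive matrix whose upper left `h × d` block is replaced by zero -/
def zb (h d : ℕ) (A : ℕ → ℕ → ℝ) : ℕ → ℕ → ℝ := fun i j => if i < h ∧ j < d then 0 else A i j

theorem zero_block (N : ℕ) : ∀ (h d : ℕ) (A : ℕ → ℕ → ℝ), STP N A → h + d ≤ N →
    0 < (-1) ^ (h * d) * dt N (zb h d A) := by
  induction N using Nat.strong_induction_on with
  | _ N ih =>
    intro h d A hA hhd
    rcases Nat.eq_zero_or_pos h with rfl | hh
    · have : dt N (zb 0 d A) = dt N A := dt_congr fun i _ j _ => by simp [zb]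
      rw [this, zero_mul, pow_zero, one_mul]
      exact hA.pos
    rcases Nat.eq_zero_or_pos d with rfl | hd
    · have : dt N (zb h 0 A) = dt N A := dt_congr fun i _ j _ => by simp [zb]
      rw [this, mul_zero, pow_zero, one_mul]
      exact hA.pos
    obtain ⟨m, rfl⟩ : ∃ m, N = m + 2 := ⟨N - 2, by omega⟩
    obtain ⟨h', rfl⟩ : ∃ h', h = h' + 1 := ⟨h - 1, by omega⟩
    obtain ⟨d', rfl⟩ : ∃ d', d = d' + 1 := ⟨d - 1, by omega⟩
    have key := desnanot m (zb (h' + 1) (d' + 1) A)
    have e1 : dt m (fun i j => zb (h' + 1) (d' + 1) A (i + 1) (j + 1)) =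
        dt m (zb h' d' (fun i j => A (i + 1) (j + 1))) := dt_congr fun i _ j _ => by simp [zb]
    have e2 : dt (m + 1) (fun i j => zb (h' + 1) (d' + 1) A (i + 1) (j + 1)) =
        dt (m + 1) (zb h' d' (fun i j => A (i + 1) (j + 1))) :=
      dt_congr fun i _ j _ => by simp [zb]
    have e3 : dt (m + 1) (fun i j => zb (h' + 1) (d' + 1) A (i + 1) j) =
        dt (m + 1) (zb h' (d' + 1) (fun i j => A (i + 1) j)) :=
      dt_congr fun i _ j _ => by simp [zb]
    have e4 : dt (m + 1) (fun i j => zb (h' + 1) (d' + 1) A i (j + 1)) =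
        dt (m + 1) (zb (h' + 1) d' (fun i j => A i (j + 1))) :=
      dt_congr fun i _ j _ => by simp [zb]
    rw [e1, e2, e3, e4] at key
    have p1 := ih m (by omega) h' d' (fun i j => A (i + 1) (j + 1)) (hA.ss.mono (by omega))
      (by omega)
    have p2 := ih (m + 1) (by omega) h' d' (fun i j => A (i + 1) (j + 1)) hA.ss (by omega)
    have p3 := ih (m + 1) (by omega) h' (d' + 1) (fun i j => A (i + 1) j) hA.si (by omega)
    have p4 := ih (m + 1) (by omega) (h' + 1) d' (fun i j => A i (j + 1)) hA.is (by omega)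
    have p5 : 0 ≤ (-1) ^ ((h' + 1) * (d' + 1)) * dt (m + 1) (zb (h' + 1) (d' + 1) A) := by
      by_cases hc : h' + 1 + (d' + 1) ≤ m + 1
      · exact (ih (m + 1) (by omega) (h' + 1) (d' + 1) A (hA.mono (by omega)) hc).le
      · rw [dt_zero_block (n := m + 1) (h := h' + 1) (d := d' + 1) (by omega) (by omega)
          (by omega) (fun i hi j hj => by rw [zb, if_pos ⟨hi, hj⟩]), mul_zero]
    set Z := dt (m + 2) (zb (h' + 1) (d' + 1) A)
    set Z1 := dt m (zb h' d' (fun i j => A (i + 1) (j + 1)))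
    set Z2 := dt (m + 1) (zb h' d' (fun i j => A (i + 1) (j + 1)))
    set Z3 := dt (m + 1) (zb h' (d' + 1) (fun i j => A (i + 1) j))
    set Z4 := dt (m + 1) (zb (h' + 1) d' (fun i j => A i (j + 1)))
    set Z5 := dt (m + 1) (zb (h' + 1) (d' + 1) A)
    have hsq : ∀ k : ℕ, ((-1 : ℝ)) ^ k * (-1) ^ k = 1 := by
      intro k
      rw [← mul_pow]
      norm_num
    have key2 : ((-1 : ℝ) ^ ((h' + 1) * (d' + 1)) * Z) * ((-1) ^ (h' * d') * Z1) =
        ((-1) ^ ((h' + 1) * (d' + 1)) * Z5) * ((-1) ^ (h' * d') * Z2) +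
        ((-1) ^ (h' * (d' + 1)) * Z3) * ((-1) ^ ((h' + 1) * d') * Z4) := by
      have a1 : ((-1 : ℝ)) ^ ((h' + 1) * (d' + 1)) =
          -((-1) ^ (h' * d') * (-1) ^ h' * (-1) ^ d') := by
        rw [show (h' + 1) * (d' + 1) = h' * d' + h' + d' + 1 by ring]
        rw [pow_succ, pow_add, pow_add]
        ring
      have a2 : ((-1 : ℝ)) ^ (h' * (d' + 1)) = (-1) ^ (h' * d') * (-1) ^ h' := by
        rw [show h' * (d' + 1) = h' * d' + h' by ring, pow_add]
      have a3 : ((-1 : ℝ)) ^ ((h' + 1) * d') = (-1) ^ (h' * d') * (-1) ^ d' := by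
        rw [show (h' + 1) * d' = h' * d' + d' by ring, pow_add]
      rw [a1, a2, a3]
      linear_combination (-((-1) ^ (h' * d') * (-1) ^ h' * (-1) ^ d' * (-1) ^ (h' * d'))) * key
    have key3 : 0 < ((-1 : ℝ) ^ ((h' + 1) * (d' + 1)) * Z) * ((-1) ^ (h' * d') * Z1) := by
      rw [key2]
      have := mul_pos p3 p4
      have := mul_nonneg p5 p2.le
      linarith
    exact pos_of_mul_pos_left key3 p1.le

end Pool.TPR
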