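import Pool.Agent.Helper53.TPR.Basic

/-! From totally positive configurations of `2N` vectors to strictly totally positive matrices. -/

namespace Pool.TPR

open Matrix Finset

/-- the order embedding of `ℕ` whose image misses `i` -/
def skip (i x : ℕ) : ℕ := if x < i then x else x + 1

section

variable {R : Type*} [CommRing R]

lemma val_succAbove {n : ℕ} (i : Fin (n + 1)) (x : Fin n) :
    ((i.succAbove x : Fin (n + 1)) : ℕ) = skip i x := by
  rw [Fin.succAbove, skip]
  by_cases h : (x : ℕ) < i
  · rw [if_pos h, if_pos (by
      rw [Fin.lt_def]
      exact h)]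
    rfl
  · rw [if_neg h, if_neg (by
      rw [Fin.lt_def]
      exact h)]
    rfl

lemma dt_row (n i : ℕ) (hi : i ≤ n) (A : ℕ → ℕ → R) :
    dt (n + 1) A = ∑ j ∈ range (n + 1), (-1) ^ (i + j) * A i j *
      dt n (fun x y => A (skip i x) (skip j y)) := by
  rw [dt, Matrix.det_succ_row _ (⟨i, by omega⟩ : Fin (n + 1)),
    ← Fin.sum_univ_eq_sum_range (fun j => (-1) ^ (i + j) * A i j *
      dt n (fun x y => A (skip i x) (skip j y)))]
  refine Finset.sum_congr rfl fun j _ => ?_
  rw [dt]
  congr 2
  ext x y
  rw [Matrix.submatrix_apply, Matrix.of_apply, Matrix.of_apply, val_succAbove, val_succAbove]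

lemma dt_col (n j : ℕ) (hj : j ≤ n) (A : ℕ → ℕ → R) :
    dt (n + 1) A = ∑ i ∈ range (n + 1), (-1) ^ (i + j) * A i j *
      dt n (fun x y => A (skip i x) (skip j y)) := by
  rw [dt, Matrix.det_succ_column _ (⟨j, by omega⟩ : Fin (n + 1)),
    ← Fin.sum_univ_eq_sum_range (fun i => (-1) ^ (i + j) * A i j *
      dt n (fun x y => A (skip i x) (skip j y)))]
  refine Finset.sum_congr rfl fun i _ => ?_
  rw [dt]
  congr 2
  ext x y
  rw [Matrix.submatrix_apply, Matrix.of_apply, Matrix.of_apply, val_succAbove, val_succAbove]

/-- the determinant of a matrix some of whose rows are unit vectors -/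
theorem shuffle (C : ℕ → ℕ → R) (N : ℕ) : ∀ (s : ℕ) (k r c : ℕ → ℕ), s ≤ N →
    (∀ x y, x < y → y < N - s → k x < k y) → (∀ x < N - s, k x < N) →
    (∀ x y, x < y → y < s → r x < r y) → (∀ x < s, r x < N) →
    (∀ x < N - s, ∀ a < s, k x ≠ N - 1 - r a) →
    (∀ y < N, (∃ x < N - s, k x = y) ∨ ∃ a < s, N - 1 - r a = y) →
    dt N (fun x y => if x < N - s then (if y = k x then 1 else 0) else C (c (x - (N - s))) y) =
      dt s (fun a b => (-1) ^ (r a) * C (c b) (N - 1 - r a)) := by
  induction N with
  | zero =>
    intro s k r c hs _ _ _ _ _ _
    have : s = 0 := by omega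
    subst this
    rw [dt_zero, dt_zero]
  | succ N ih =>
    intro s k r c hs hk hk' hr hr' hd hcov
    by_cases hr0 : s = 0 ∨ r 0 ≠ 0
    · -- the last unit vector is `N`
      have hNK : ∃ x < N + 1 - s, k x = N := by
        rcases hcov N (by omega) with h | ⟨a, ha, ha'⟩
        · exact h
        · exfalso
          have hra := hr' a ha
          rcases hr0 with h0 | h0
          · omega
          · rcases Nat.eq_zero_or_pos a with rfl | ha0
            · omega
            · have := hr 0 a ha0 ha
              omega
      obtain ⟨x₀, hx₀, hkx₀⟩ := hNK
      have hx0 : x₀ = N - s := by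
        by_contra hne
        have h1 := hk x₀ (x₀ + 1) (by omega) (by omega)
        have h2 := hk' (x₀ + 1) (by omega)
        omega
      have hsN : s ≤ N := by omega
      subst hx0
      have hrpos : ∀ a < s, 1 ≤ r a := by
        intro a ha
        rcases hr0 with h0 | h0
        · omega
        · rcases Nat.eq_zero_or_pos a with rfl | ha0
          · omega
          · have := hr 0 a ha0 ha
            omega
      rw [dt_row N (N - s) (by omega), Finset.sum_eq_single N]
      · have e1 : dt N (fun x y => if skip (N - s) x < N + 1 - s then
            (if skip N y = k (skip (N - s) x) then (1 : R) else 0) else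
            C (c (skip (N - s) x - (N + 1 - s))) (skip N y)) =
            dt N (fun x y => if x < N - s then (if y = k x then 1 else 0) else
              C (c (x - (N - s))) y) := by
          refine dt_congr fun x hx y hy => ?_
          have hy' : skip N y = y := by rw [skip, if_pos hy]
          rw [hy']
          by_cases hxs : x < N - s
          · have hx' : skip (N - s) x = x := by rw [skip, if_pos hxs]
            rw [hx', if_pos (by omega), if_pos hxs]
          · have hx' : skip (N - s) x = x + 1 := by rw [skip, if_neg hxs]
            rw [hx', if_neg (by omega), if_neg hxs]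
            congr 2
            omega
        have h2 := ih s k (fun a => r a - 1) c hsN (fun x y hxy hy => hk x y hxy (by omega))
          (fun x hx => by
            have h1 := hk x (N - s) hx (by omega)
            omega)
          (fun x y hxy hy => by
            have h1 := hr x y hxy hy
            have h2 := hrpos x (by omega)
            show r x - 1 < r y - 1
            omega)
          (fun x hx => by
            have h1 := hr' x hx
            have h2 := hrpos x hx
            show r x - 1 < N
            omega)
          (fun x hx a ha => by
            have h1 := hd x (by omega) a ha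
            have h2 := hrpos a ha
            show k x ≠ N - 1 - (r a - 1)
            omega)
          (fun y hy => by
            rcases hcov y (by omega) with ⟨x, hx, hxy⟩ | ⟨a, ha, hay⟩
            · left
              refine ⟨x, ?_, hxy⟩
              by_contra hc
              have : x = N - s := by omega
              subst this
              omega
            · right
              have h2 := hrpos a ha
              exact ⟨a, ha, by
                show N - 1 - (r a - 1) = y
                omega⟩)
        rw [e1, h2, if_pos (by omega), if_pos hkx₀.symm, mul_one]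
        have e3 : dt s (fun a b => (-1) ^ (r a) * C (c b) (N + 1 - 1 - r a)) =
            dt s (fun a b => (-1) * ((-1) ^ (r a - 1) * C (c b) (N - 1 - (r a - 1)))) := by
          refine dt_congr fun a ha b hb => ?_
          have h3 := hrpos a ha
          have h4 := hr' a ha
          obtain ⟨t, ht⟩ : ∃ t, r a = t + 1 := ⟨r a - 1, by omega⟩
          rw [ht, pow_succ, show N + 1 - 1 - (t + 1) = N - 1 - t by omega,
            show t + 1 - 1 = t by omega]
          ring
        have e4 := dt_mul_row s (fun _ => (-1 : R))
          (fun a b => (-1) ^ (r a - 1) * C (c b) (N - 1 - (r a - 1)))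
        rw [e3, e4, prod_const, card_range]
        congr 1
        have : ((-1 : R)) ^ (N - s + N) * (-1) ^ s * ((-1) ^ s) = (-1) ^ s := by
          rw [← pow_add, ← pow_add, show N - s + N + s + s = 2 * N + s by omega, pow_add, pow_mul]
          simp
        have h5 : ((-1 : R)) ^ s * (-1) ^ s = 1 := by
          rw [← mul_pow]
          simp
        rw [mul_assoc, h5, mul_one] at this
        exact this
      · intro j hj hjN
        rw [if_pos (by omega), if_neg (by omega)]
        ring
      · intro h
        exact absurd (mem_range.2 (by omega)) h
    · -- no unit vector is `N`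
      push Not at hr0
      obtain ⟨hs0, hr0⟩ := hr0
      obtain ⟨s, rfl⟩ : ∃ s', s = s' + 1 := ⟨s - 1, by omega⟩
      have hkN : ∀ x < N - s, k x ≠ N := by
        intro x hx
        have := hd x (by omega) 0 (by omega)
        rw [hr0] at this
        simpa using this
      have hNs : N + 1 - (s + 1) = N - s := by omega
      simp only [hNs] at hk hk' hd hcov ⊢
      rw [dt_col N N le_rfl]
      have hsplit : N + 1 = (N - s) + (s + 1) := by omega
      rw [hsplit, Finset.sum_range_add, ← hsplit]
      have hz : ∑ x ∈ range (N - s), (-1) ^ (x + N) *
          (if x < N - s then (if N = k x then (1 : R) else 0) else C (c (x - (N - s))) N) *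
          dt N (fun x' y => if skip x x' < N - s then
            (if skip N y = k (skip x x') then (1 : R) else 0) else
            C (c (skip x x' - (N - s))) (skip N y)) = 0 := by
        refine Finset.sum_eq_zero fun x hx => ?_
        rw [mem_range] at hx
        rw [if_pos hx, if_neg (Ne.symm (hkN x hx))]
        ring
      rw [hz, zero_add, dt_row s 0 (by omega)]
      refine Finset.sum_congr rfl fun a ha => ?_
      rw [mem_range] at ha
      have e1 : dt N (fun x' y => if skip (N - s + a) x' < N - s then
            (if skip N y = k (skip (N - s + a) x') then (1 : R) else 0) else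
            C (c (skip (N - s + a) x' - (N - s))) (skip N y)) =
          dt N (fun x y => if x < N - s then (if y = k x then 1 else 0) else
            C ((fun b => c (skip a b)) (x - (N - s))) y) := by
        refine dt_congr fun x hx y hy => ?_
        have hy' : skip N y = y := by rw [skip, if_pos hy]
        rw [hy']
        by_cases hxs : x < N - s
        · have hx' : skip (N - s + a) x = x := by rw [skip, if_pos (by omega)]
          rw [hx', if_pos hxs, if_pos hxs]
        · have hx' : ¬ skip (N - s + a) x < N - s := by
            rw [skip]
            split_ifs <;> omega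
          rw [if_neg hx', if_neg hxs]
          have hx'' : skip (N - s + a) x - (N - s) = skip a (x - (N - s)) := by
            rw [skip, skip]
            split_ifs <;> omega
          rw [hx'']
      have h2 := ih s k (fun b => r (b + 1) - 1) (fun b => c (skip a b)) (by omega)
        (fun x y hxy hy => hk x y hxy hy)
        (fun x hx => by
          have h1 := hk' x hx
          have h2 := hkN x hx
          omega)
        (fun x y hxy hy => by
          have h1 := hr (x + 1) (y + 1) (by omega) (by omega)
          have h2 := hr 0 (x + 1) (by omega) (by omega)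
          show r (x + 1) - 1 < r (y + 1) - 1
          omega)
        (fun x hx => by
          have h1 := hr' (x + 1) (by omega)
          have h2 := hr 0 (x + 1) (by omega) (by omega)
          show r (x + 1) - 1 < N
          omega)
        (fun x hx b hb => by
          have h1 := hd x hx (b + 1) (by omega)
          have h2 := hr 0 (b + 1) (by omega) (by omega)
          show k x ≠ N - 1 - (r (b + 1) - 1)
          omega)
        (fun y hy => by
          rcases hcov y (by omega) with ⟨x, hx, hxy⟩ | ⟨b, hb, hby⟩
          · left
            exact ⟨x, hx, hxy⟩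
          · right
            have hb0 : b ≠ 0 := by
              rintro rfl
              rw [hr0] at hby
              omega
            have h2 := hr 0 b (by omega) hb
            refine ⟨b - 1, by omega, ?_⟩
            show N - 1 - (r (b - 1 + 1) - 1) = y
            rw [Nat.sub_add_cancel (by omega)]
            omega)
      rw [e1, h2, if_neg (by omega), Nat.add_sub_cancel_left]
      have e5 : skip 0 = fun x => x + 1 := by
        ext x
        simp [skip]
      rw [e5]
      have e3 : dt s (fun x y => (-1) ^ (r (x + 1)) * C (c (skip a y)) (N + 1 - 1 - r (x + 1))) =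
          dt s (fun x y => (-1) * ((-1) ^ (r (x + 1) - 1) *
            C (c (skip a y)) (N - 1 - (r (x + 1) - 1)))) := by
        refine dt_congr fun x hx y hy => ?_
        have h3 := hr 0 (x + 1) (by omega) (by omega)
        obtain ⟨t, ht⟩ : ∃ t, r (x + 1) = t + 1 := ⟨r (x + 1) - 1, by omega⟩
        rw [ht, pow_succ, show N + 1 - 1 - (t + 1) = N - 1 - t by omega,
          show t + 1 - 1 = t by omega]
        ring
      have e4 := dt_mul_row s (fun _ => (-1 : R))
        (fun x y => (-1) ^ (r (x + 1) - 1) * C (c (skip a y)) (N - 1 - (r (x + 1) - 1)))
      rw [e3, e4, prod_const, card_range, hr0, zero_add, pow_zero, one_mul]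
      have h6 : ((-1 : R)) ^ (N - s + a + N) = (-1) ^ a * (-1) ^ s := by
        have h7 : ((-1 : R)) ^ (N - s + a + N) * ((-1) ^ s * (-1) ^ s) = (-1) ^ a * (-1) ^ s := by
          rw [← pow_add, ← pow_add, ← pow_add,
            show N - s + a + N + (s + s) = 2 * N + (a + s) by omega, pow_add, pow_mul]
          simp
        have h5 : ((-1 : R)) ^ s * (-1) ^ s = 1 := by
          rw [← mul_pow]
          simp
        rwa [h5, mul_one] at h7
      rw [h6]
      simp only [Nat.add_sub_cancel, Nat.sub_zero]
      ring

end

/-- the matrix of coordinates of a totally positive configuration is strictly totally positive -/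
theorem stp_of_config (N : ℕ) (Y C : ℕ → ℕ → ℝ)
    (hC : ∀ j < N, ∀ k < N, Y (N + j) k = ∑ i ∈ range N, C j i * Y i k)
    (hpos : ∀ J : ℕ → ℕ, (∀ x y, x < y → y < N → J x < J y) → (∀ x < N, J x < 2 * N) →
      0 < dt N (fun x y => Y (J x) y)) :
    STP N (fun a b => (-1) ^ a * C b (N - 1 - a)) := by
  intro s r c hr hc hr' hc'
  have hsN : s ≤ N := by
    by_contra hc
    have key : ∀ i < s, i ≤ r i := by
      intro i
      induction i with
      | zero => exact fun _ => Nat.zero_le _
      | succ i ih =>
        intro hi
        have h1 := ih (by omega)
        have h2 := hr i (i + 1) (by omega) hi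
        omega
    have h1 := key (s - 1) (by omega)
    have h2 := hr' (s - 1) (by omega)
    omega
  set T : Finset ℕ := range N \ (range s).image (fun a => N - 1 - r a) with hT
  have hinj : Set.InjOn (fun a => N - 1 - r a) (range s : Set ℕ) := by
    intro a ha b hb hab
    rw [coe_range, Set.mem_Iio] at ha hb
    have h1 := hr' a ha
    have h2 := hr' b hb
    simp only at hab
    rcases lt_trichotomy a b with h | h | h
    · have := hr a b h hb
      omega
    · exact h
    · have := hr b a h ha
      omega
  have hTc : T.card = N - s := by
    rw [hT, card_sdiff_of_subset, card_range, card_image_of_injOn hinj, card_range]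
    intro y hy
    rw [mem_image] at hy
    obtain ⟨a, ha, rfl⟩ := hy
    rw [mem_range] at ha ⊢
    have := hr' a ha
    omega
  let e := T.orderEmbOfFin hTc
  let k : ℕ → ℕ := fun x => if h : x < N - s then e ⟨x, h⟩ else 0
  have hk : ∀ x (h : x < N - s), k x = e ⟨x, h⟩ := fun x h => dif_pos h
  have hkT : ∀ x < N - s, k x ∈ T := by
    intro x hx
    rw [hk x hx]
    exact T.orderEmbOfFin_mem hTc _
  have hkN : ∀ x < N - s, k x < N := by
    intro x hx
    have := hkT x hx
    rw [hT, mem_sdiff, mem_range] at this
    exact this.1
  have hkm : ∀ x y, x < y → y < N - s → k x < k y := by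
    intro x y hxy hy
    rw [hk x (by omega), hk y hy]
    exact e.strictMono (by
      rw [Fin.lt_def]
      exact hxy)
  have hd : ∀ x < N - s, ∀ a < s, k x ≠ N - 1 - r a := by
    intro x hx a ha h
    have := hkT x hx
    rw [hT, mem_sdiff, mem_image] at this
    exact this.2 ⟨a, mem_range.2 ha, h.symm⟩
  have hcov : ∀ y < N, (∃ x < N - s, k x = y) ∨ ∃ a < s, N - 1 - r a = y := by
    intro y hy
    by_cases h : ∃ a < s, N - 1 - r a = y
    · exact Or.inr h
    · left
      have hyT : y ∈ T := by
        rw [hT, mem_sdiff, mem_range, mem_image]
        refine ⟨hy, ?_⟩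
        rintro ⟨a, ha, ha'⟩
        exact h ⟨a, mem_range.1 ha, ha'⟩
      have hr : y ∈ Set.range e := by
        rw [T.range_orderEmbOfFin hTc]
        exact hyT
      obtain ⟨x, hx⟩ := hr
      exact ⟨x, x.2, by rw [hk x x.2, ← hx]⟩
  have hsh := shuffle C N s k r c hsN hkm hkN hr hr' hd hcov
  set J : ℕ → ℕ := fun x => if x < N - s then k x else N + c (x - (N - s)) with hJ
  have hJpos := hpos J (by
      intro x y hxy hy
      simp only [hJ]
      by_cases h1 : y < N - s
      · rw [if_pos (by omega), if_pos h1]
        exact hkm x y hxy h1
      · rw [if_neg h1]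
        split_ifs with h2
        · have := hkN x h2
          omega
        · have := hc (x - (N - s)) (y - (N - s)) (by omega) (by omega)
          omega)
    (by
      intro x hx
      simp only [hJ]
      split_ifs with h2
      · have := hkN x h2
        omega
      · have := hc' (x - (N - s)) (by omega)
        omega)
  have hid := hpos id (fun x y h _ => h) (fun x hx => by
    show x < 2 * N
    omega)
  set X : ℕ → ℕ → ℝ := fun x y =>
    if x < N - s then (if y = k x then 1 else 0) else C (c (x - (N - s))) y with hX
  have hmul : dt N (fun x y => Y (J x) y) = dt N X * dt N Y := by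
    rw [dt, dt, dt, ← Matrix.det_mul]
    congr 1
    ext x y
    rw [Matrix.mul_apply]
    simp only [Matrix.of_apply]
    rw [Fin.sum_univ_eq_sum_range (fun i => X x i * Y i y)]
    simp only [hJ, hX]
    by_cases h1 : (x : ℕ) < N - s
    · simp only [if_pos h1]
      rw [Finset.sum_eq_single (k x)]
      · rw [if_pos rfl, one_mul]
      · intro b _ hb
        rw [if_neg hb, zero_mul]
      · intro h
        exact absurd (mem_range.2 (hkN x h1)) h
    · simp only [if_neg h1]
      exact hC _ (hc' _ (by omega)) _ y.2
  rw [hmul] at hJpos
  have hXpos : 0 < dt N X := pos_of_mul_pos_left hJpos hid.le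
  rw [hX, hsh] at hXpos
  exact hXpos

end Pool.TPR
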