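import Pool.Agent.Helper53.CSC.Pos

/-! Totally positive configurations from cosecant flags. -/

namespace Pool.TPR

open Polynomial ExteriorAlgebra Pool.CSC

noncomputable section

lemma W_comm (L L' : List ℝ[X]) : W L * W L' = ((-1 : ℝ) ^ (L.length * L'.length)) • (W L' * W L) := by
  induction L' with
  | nil => simp
  | cons u L' ih =>
    rw [W_cons, W_mul_ι, ih, List.length_cons, mul_smul_comm, smul_smul, ← pow_add, mul_assoc]
    congr 2
    ring

lemma ι_mul_self_mul (f : ℝ[X]) (T : ExteriorAlgebra ℝ ℝ[X]) : ι ℝ f * (ι ℝ f * T) = 0 := by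
  rw [← mul_assoc, ι_sq_zero, zero_mul]

/-- vectors in the span of the block -/
lemma ι_mul_blk_zero (r : ℕ) : ∀ (h q : ℝ[X]), q.degree < r → ι ℝ (h * q) * blk h r = 0 := by
  induction r with
  | zero =>
    intro h q hq
    have : q = 0 := by
      rw [← degree_eq_bot]
      exact Nat.WithBot.lt_zero_iff.1 (by simpa using hq)
    rw [this, mul_zero, map_zero, zero_mul]
  | succ r ih =>
    intro h q hq
    have h1 : h * q = X * h * q.divX + q.coeff 0 • h := by
      nth_rewrite 1 [← divX_mul_X_add q]
      rw [smul_eq_C_mul]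
      ring
    have h2 : q.divX.degree < r := by
      rcases eq_or_ne q.divX 0 with h0 | h0
      · rw [h0, degree_zero]
        exact WithBot.bot_lt_coe _
      · have h3 : 0 < q.degree := by
          by_contra hc
          apply h0
          rw [eq_C_of_degree_le_zero (not_lt.1 hc), divX_C]
        have := degree_divX_lt (p := q) (by
          rintro rfl
          simp at h0)
        have h4 : q.degree ≤ r := by
          have : q.degree < ((r + 1 : ℕ) : WithBot ℕ) := by exact_mod_cast hq
          exact Order.le_of_lt_succ (by exact_mod_cast this)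
        exact lt_of_lt_of_le this h4
    rw [h1, map_add, add_mul, map_smul, blk_succ, smul_mul_assoc, ι_mul_self_mul, smul_zero,
      add_zero, ← mul_assoc, ι_anti, neg_mul, mul_assoc, ih _ _ h2, mul_zero, neg_zero]

lemma degree_fr (S : List ℝ) : (fr S).degree = S.length := by
  induction S with
  | nil => simp
  | cons s S ih =>
    rw [fr_cons, degree_mul, degree_X_sub_C, ih, List.length_cons]
    push_cast
    ring

lemma fr_perm {S S' : List ℝ} (h : S.Perm S') : fr S = fr S' := by
  rw [fr, fr]
  exact (h.map _).prod_eq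

lemma fr_append (S S' : List ℝ) : fr (S ++ S') = fr S * fr S' := by simp [fr]

lemma fr_eval_pos {T : List ℝ} {t : ℝ} (h : ∀ s ∈ T, s < t) : 0 < (fr T).eval t := by
  induction T with
  | nil => simp
  | cons s T ih =>
    rw [fr_cons, eval_mul, eval_sub, eval_X, eval_C]
    exact mul_pos (sub_pos.2 (h s (by simp))) (ih fun s hs => h s (by simp [hs]))

/-- the first vector of a block -/
lemma ι_mul_blk_eval (g q : ℝ[X]) (t : ℝ) (r : ℕ) (hq : q.degree < (r + 1 : ℕ)) :
    ι ℝ (g * q) * blk (g * (X - C t)) r = q.eval t • blk g (r + 1) := by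
  obtain ⟨w, hw⟩ : ∃ w, q = C (q.eval t) + (X - C t) * w := by
    refine ⟨q /ₘ (X - C t), ?_⟩
    have h1 := modByMonic_add_div q (X - C t)
    rw [modByMonic_X_sub_C_eq_C_eval] at h1
    exact h1.symm
  have hwd : w.degree < r := by
    rcases eq_or_ne w 0 with h0 | h0
    · rw [h0, degree_zero]
      exact WithBot.bot_lt_coe _
    · have h1 : ((X - C t) * w).degree < ((r + 1 : ℕ) : WithBot ℕ) := by
        have : (X - C t) * w = q - C (q.eval t) := by
          rw [eq_sub_iff_add_eq', ← hw]
        rw [this]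
        refine lt_of_le_of_lt (degree_sub_le _ _) (max_lt hq ?_)
        exact lt_of_le_of_lt degree_C_le (by exact_mod_cast Nat.succ_pos r)
      rw [degree_mul, degree_X_sub_C, degree_eq_natDegree h0] at h1
      rw [degree_eq_natDegree h0]
      have h2 : 1 + w.natDegree < r + 1 := by exact_mod_cast h1
      exact_mod_cast (by omega : w.natDegree < r)
  have h1 : g * q = q.eval t • g + (g * (X - C t)) * w := by
    nth_rewrite 1 [hw]
    rw [smul_eq_C_mul]
    ring
  rw [h1, map_add, add_mul, ι_mul_blk_zero r _ _ hwd, add_zero, map_smul, smul_mul_assoc,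
    blk_succ' g t, mul_comm g (X - C t)]

/-- **Lagrange block**: the polynomials with one root omitted -/
lemma lag_block (T : List ℝ) : ∀ (g : ℝ[X]) (r : ℕ), T.Pairwise (fun a b => b < a) →
    ∃ c : ℝ, 0 < c ∧ W (T.map fun t => g * fr (T.erase t)) * blk (g * fr T) r =
      c • blk g (T.length + r) := by
  induction T with
  | nil =>
    intro g r _
    exact ⟨1, one_pos, by simp⟩
  | cons t T ih =>
    intro g r hT
    rw [List.pairwise_cons] at hT
    obtain ⟨c, hc, h⟩ := ih (g * (X - C t)) r hT.2
    refine ⟨c * (fr T).eval t, mul_pos hc (fr_eval_pos hT.1), ?_⟩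
    have h1 : (List.map (fun u => g * fr ((t :: T).erase u)) T) =
        List.map (fun u => g * (X - C t) * fr (T.erase u)) T := by
      apply List.map_congr_left
      intro u hu
      have hut : t ≠ u := (hT.1 u hu).ne'
      rw [List.erase_cons_tail (by simpa using hut), fr_cons]
      ring
    rw [List.map_cons, W_cons, List.erase_cons_head, h1, mul_assoc, fr_cons, ← mul_assoc g, h,
      mul_smul_comm, ι_mul_blk_eval _ _ _ _ (by
        rw [degree_fr]
        exact_mod_cast (by omega : T.length < T.length + r + 1)), smul_smul, List.length_cons]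
    congr 2
    omega

/-- the data of a flag: base point, roots of the large space, further roots of the small space,
dimension of the small space -/
structure Fl where
  a : ℝ
  S : List ℝ
  T : List ℝ
  e : ℕ

/-- the common factor -/
def qf (n : ℕ) (F : Fl) : ℝ[X] := (X - C F.a) ^ (n - F.e - F.T.length - F.S.length) * fr F.S

/-- the vectors of the block -/
def Yv (n : ℕ) (F : Fl) : List ℝ[X] := F.T.map fun t => qf n F * fr (F.T.erase t)

/-- the small space -/
def Bv (n : ℕ) (F : Fl) : List ℝ[X] := bl (qf n F * fr F.T) F.e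

def allB (n : ℕ) : List Fl → List ℝ[X]
  | [] => []
  | F :: Fs => Bv n F ++ allB n Fs

def allY (n : ℕ) : ℝ → List Fl → List ℝ[X]
  | _, [] => []
  | ε, F :: Fs => (Yv n F).map (fun f => ε • f) ++ allY n (ε * (-1) ^ F.e) Fs

/-- a group obtained from a flag by selection of vectors of the block -/
def relF (n : ℕ) (G : Grp) (F : Fl) : Prop :=
  G.a = F.a ∧ (∀ s ∈ G.S, s ∈ F.S ∨ s ∈ F.T) ∧ G.r + G.S.length = F.e + F.S.length + F.T.length

lemma W_map_smul (ε : ℝ) (L : List ℝ[X]) :
    W (L.map fun f => ε • f) = ε ^ L.length • W L := by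
  induction L with
  | nil => simp
  | cons f L ih =>
    rw [List.map_cons, W_cons, W_cons, ih, map_smul, List.length_cons, smul_mul_assoc,
      mul_smul_comm, smul_smul, pow_succ']

/-- selection inside one block -/
lemma sel_one {n : ℕ} {F : Fl} (hT : F.T.Pairwise (fun a b => b < a))
    (hle : F.e + F.S.length + F.T.length ≤ n) {L : List ℝ[X]} (hL : L.Sublist (Yv n F)) :
    ∃ (G : Grp) (c : ℝ), 0 < c ∧ relF n G F ∧ G.r = L.length + F.e ∧
      W L * W (Bv n F) = c • W (bl (gp n G) G.r) := by
  rw [Yv, List.sublist_map_iff] at hL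
  obtain ⟨T', hT', rfl⟩ := hL
  obtain ⟨T'', hp⟩ := hT'.exists_perm_append
  obtain ⟨c, hc, h⟩ := lag_block T' (qf n F * fr T'') F.e (hT.sublist hT')
  have hlen : F.T.length = T'.length + T''.length := by
    rw [hp.length_eq, List.length_append]
  refine ⟨⟨F.a, F.S ++ T'', T'.length + F.e⟩, c, hc, ⟨rfl, ?_, ?_⟩, by simp, ?_⟩
  · intro s hs
    rw [List.mem_append] at hs
    rcases hs with hs | hs
    · exact Or.inl hs
    · right
      rw [hp.mem_iff, List.mem_append]
      exact Or.inr hs
  · simp only [List.length_append]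
    omega
  · have h1 : T'.map (fun t => qf n F * fr (F.T.erase t)) =
        T'.map (fun t => qf n F * fr T'' * fr (T'.erase t)) := by
      apply List.map_congr_left
      intro t ht
      have h2 : (F.T.erase t).Perm (T'.erase t ++ T'') := by
        have := hp.erase t
        rwa [List.erase_append_left _ ht] at this
      rw [fr_perm h2, fr_append]
      ring
    have h2 : qf n F * fr F.T = qf n F * fr T'' * fr T' := by
      rw [fr_perm hp, fr_append]
      ring
    have h3 : gp n ⟨F.a, F.S ++ T'', T'.length + F.e⟩ = qf n F * fr T'' := by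
      rw [gp, qf]
      simp only [List.length_append]
      rw [fr_append, show n - (T'.length + F.e) - (F.S.length + T''.length) =
        n - F.e - F.T.length - F.S.length by omega]
      ring
    rw [h1, h3, Bv, h2]
    exact h

/-- selection in all blocks -/
lemma sel_all {n : ℕ} (Fs : List Fl) : ∀ (ε : ℝ), ε * ε = 1 →
    (∀ F ∈ Fs, F.T.Pairwise (fun a b => b < a)) →
    (∀ F ∈ Fs, F.e + F.S.length + F.T.length ≤ n) → ∀ L : List ℝ[X], L.Sublist (allY n ε Fs) →
    ∃ (Gs : List Grp) (c : ℝ), 0 < c ∧ List.Forall₂ (relF n) Gs Fs ∧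
      (Gs.map Grp.r).sum = L.length + (Fs.map Fl.e).sum ∧
      W L * W (allB n Fs) = (ε ^ L.length * c) • W (cat n Gs) := by
  induction Fs with
  | nil =>
    intro ε _ _ _ L hL
    rw [allY, List.sublist_nil] at hL
    subst hL
    exact ⟨[], 1, one_pos, List.Forall₂.nil, by simp, by simp [allB]⟩
  | cons F Fs ih =>
    intro ε hε hT hle L hL
    rw [allY, List.sublist_append_iff] at hL
    obtain ⟨L1, L2, rfl, hL1, hL2⟩ := hL
    rw [List.sublist_map_iff] at hL1
    obtain ⟨L1', hL1', rfl⟩ := hL1
    obtain ⟨G, c1, hc1, hG1, hG2, hG3⟩ := sel_one (hT F (by simp)) (hle F (by simp)) hL1'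
    have hε' : ε * (-1) ^ F.e * (ε * (-1) ^ F.e) = 1 := by
      have : ((-1 : ℝ)) ^ F.e * (-1) ^ F.e = 1 := by
        rw [← mul_pow]
        norm_num
      linear_combination ((-1 : ℝ) ^ F.e * (-1) ^ F.e) * hε + this
    obtain ⟨Gs, c2, hc2, hGs1, hGs2, hGs3⟩ := ih (ε * (-1) ^ F.e) hε'
      (fun F hF => hT F (by simp [hF])) (fun F hF => hle F (by simp [hF])) L2 hL2
    refine ⟨G :: Gs, c1 * c2, mul_pos hc1 hc2, List.Forall₂.cons hG1 hGs1, ?_, ?_⟩
    · simp only [List.map_cons, List.sum_cons, List.length_append, List.length_map]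
      rw [hG2, hGs2]
      omega
    · rw [W_append, allB, W_append, W_map_smul, cat_cons, W_append]
      have hBl : (Bv n F).length = F.e := by simp [Bv]
      have h1 : ε ^ L1'.length • W L1' * W L2 * (W (Bv n F) * W (allB n Fs)) =
          ε ^ L1'.length • (W L1' * (W L2 * W (Bv n F)) * W (allB n Fs)) := by
        simp only [smul_mul_assoc, mul_assoc]
      rw [h1, W_comm L2, mul_smul_comm, smul_mul_assoc, hBl]
      have h2 : W L1' * (W (Bv n F) * W L2) * W (allB n Fs) =
          (W L1' * W (Bv n F)) * (W L2 * W (allB n Fs)) := by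
        simp only [mul_assoc]
      rw [h2, hG3, hGs3, smul_mul_assoc, mul_smul_comm, smul_smul, smul_smul, smul_smul,
        List.length_append, List.length_map]
      congr 1
      have h3 : ((-1 : ℝ)) ^ (L2.length * F.e) * ((-1) ^ F.e) ^ L2.length = 1 := by
        rw [← pow_mul, mul_comm F.e, ← mul_pow]
        norm_num
      rw [mul_pow, pow_add]
      linear_combination (ε ^ L1'.length * ε ^ L2.length * c1 * c2) * h3

/-- separated flags -/
structure GoodF (n : ℕ) (Fs : List Fl) : Prop where
  pw : Fs.Pairwise (fun F F' => F.a < F'.a ∧ ∀ s, s ∈ F.S ∨ s ∈ F.T → s < F'.a)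
  fr : ∀ F ∈ Fs, ∀ s, s ∈ F.S ∨ s ∈ F.T → F.a < s
  le : ∀ F ∈ Fs, F.e + F.S.length + F.T.length ≤ n
  dec : ∀ F ∈ Fs, F.T.Pairwise (fun a b => b < a)

lemma forall2_pw {n : ℕ} {Gs : List Grp} {Fs : List Fl} (h : List.Forall₂ (relF n) Gs Fs)
    (hp : Fs.Pairwise (fun F F' => F.a < F'.a ∧ ∀ s, s ∈ F.S ∨ s ∈ F.T → s < F'.a)) :
    Gs.Pairwise (fun G H => G.a < H.a ∧ ∀ s ∈ G.S, s < H.a) := by
  induction h with
  | nil => exact List.Pairwise.nil
  | @cons G F l l' h1 h2 ih =>
    rw [List.pairwise_cons] at hp ⊢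
    refine ⟨fun H hH => ?_, ih hp.2⟩
    obtain ⟨i, hi, rfl⟩ := List.mem_iff_getElem.1 hH
    have hi' : i < l'.length := by rw [← h2.length_eq]; exact hi
    have hr := (List.forall₂_iff_get.1 h2).2 i hi hi'
    obtain ⟨h3, h4⟩ := hp.1 l'[i] (List.getElem_mem hi')
    simp only [List.get_eq_getElem] at hr
    rw [h1.1, hr.1]
    exact ⟨h3, fun s hs => h4 s (h1.2.1 s hs)⟩

lemma forall2_mem {n : ℕ} {Gs : List Grp} {Fs : List Fl} (h : List.Forall₂ (relF n) Gs Fs) :
    ∀ G ∈ Gs, ∃ F ∈ Fs, relF n G F := by
  induction h with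
  | nil => simp
  | @cons G F l l' h1 h2 ih =>
    intro K hK
    rw [List.mem_cons] at hK
    rcases hK with rfl | hK
    · exact ⟨F, by simp, h1⟩
    · obtain ⟨F', hF', h⟩ := ih K hK
      exact ⟨F', by simp [hF'], h⟩

/-- **the configuration is totally positive** -/
theorem allY_pos {n : ℕ} (Fs : List Fl) (hF : GoodF n Fs) (L : List ℝ[X])
    (hL : L.Sublist (allY n 1 Fs)) (hlen : L.length + (Fs.map Fl.e).sum = n) :
    0 < vol n (W (L ++ allB n Fs)) := by
  obtain ⟨Gs, c, hc, h1, h2, h3⟩ := sel_all Fs 1 (by norm_num) hF.dec hF.le L hL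
  rw [W_append, h3, map_smul, one_pow, one_mul, smul_eq_mul]
  refine mul_pos hc ?_
  -- a point to the right of everything
  obtain ⟨b, hb, -⟩ := Order.exists_between_finsets
    ((Gs.flatMap fun G => G.a :: G.S).toFinset : Finset ℝ) ∅ (by simp)
  have hb1 : ∀ G ∈ Gs, G.a < b := fun G hG => hb _ (by
    rw [List.mem_toFinset, List.mem_flatMap]
    exact ⟨G, hG, by simp⟩)
  have hb2 : ∀ G ∈ Gs, ∀ s ∈ G.S, s < b := fun G hG s hs => hb _ (by
    rw [List.mem_toFinset, List.mem_flatMap]
    exact ⟨G, hG, by simp [hs]⟩)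
  have hgood : Good n (Gs ++ [⟨b, [], 0⟩]) := by
    refine ⟨?_, ?_, ?_, ?_, ?_⟩
    · rw [List.pairwise_append]
      refine ⟨forall2_pw h1 hF.pw, by simp, ?_⟩
      intro G hG H hH
      rw [List.mem_singleton] at hH
      subst hH
      exact ⟨hb1 G hG, hb2 G hG⟩
    · intro G hG s hs
      rw [List.mem_append, List.mem_singleton] at hG
      rcases hG with hG | rfl
      · obtain ⟨F, hF', hr⟩ := forall2_mem h1 G hG
        rw [hr.1]
        exact hF.fr F hF' s (hr.2.1 s hs)
      · simp at hs
    · rw [List.map_append, List.sum_append, h2]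
      simp [hlen]
    · intro G hG
      rw [List.mem_append, List.mem_singleton] at hG
      rcases hG with hG | rfl
      · obtain ⟨F, hF', hr⟩ := forall2_mem h1 G hG
        rw [hr.2.2]
        exact hF.le F hF'
      · simp
    · intro P K hPK
      have := (List.append_inj' hPK rfl).2
      simp only [List.cons.injEq, and_true] at this
      rw [← this]
  have hpos := main_pos n _ _ rfl hgood
  rw [D, cat_append, cat_cons, bl, cat_nil, List.append_nil, List.append_nil] at hpos
  exact hpos

end

end Pool.TPR
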