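import Pool.Agent.Helper53.TPR.Config
import Pool.Agent.Helper53.TPR.Lag

/-! From a totally positive list of polynomials to a strictly totally positive matrix. -/

namespace Pool.TPR

open Polynomial ExteriorAlgebra Pool.CSC Finset

noncomputable section

lemma dt_mul (n : ℕ) (A B : ℕ → ℕ → ℝ) :
    dt n (fun x y => ∑ w ∈ range n, A x w * B w y) = dt n A * dt n B := by
  rw [dt, dt, dt, ← Matrix.det_mul]
  congr 1
  ext x y
  rw [Matrix.mul_apply]
  simp only [Matrix.of_apply]
  rw [Fin.sum_univ_eq_sum_range (fun i => A x i * B i y)]

lemma dt_block (N : ℕ) (k : ℕ) (A : ℕ → ℕ → ℝ)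
    (hA : ∀ x, N ≤ x → ∀ y, A x y = if x = y then 1 else 0) : dt (N + k) A = dt N A := by
  induction k with
  | zero => rfl
  | succ k ih =>
    rw [← ih, ← add_assoc, dt_row (N + k) (N + k) le_rfl, Finset.sum_eq_single (N + k)]
    · rw [hA (N + k) (by omega), if_pos rfl, mul_one, ← two_mul, pow_mul]
      norm_num
      refine dt_congr fun x hx y hy => ?_
      rw [skip, if_pos hx, skip, if_pos hy]
    · intro y hy hne
      rw [hA (N + k) (by omega), if_neg (Ne.symm hne)]
      ring
    · intro h
      exact absurd (mem_range.2 (by omega)) h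

lemma vol_dt {n : ℕ} (L : List ℝ[X]) (hL : L.length = n) :
    vol n (W L) = dt n (fun x y => (L.getD x 0).coeff y) := by
  subst hL
  rw [vol_W, dt]
  congr 1
  ext i j
  simp [List.getD_eq_getElem]

/-- a totally positive list gives a strictly totally positive matrix -/
theorem stp_of_lists {n N : ℕ} (Z B : List ℝ[X]) (hZ : Z.length = 2 * N) (hB : N + B.length = n)
    (hdZ : ∀ f ∈ Z, f.natDegree < n) (hdB : ∀ f ∈ B, f.natDegree < n) (ε : ℝ)
    (hpos : ∀ L : List ℝ[X], L.Sublist Z → L.length = N → 0 < ε * vol n (W (L ++ B))) :
    ∃ C : ℕ → ℕ → ℝ, STP N (fun a b => (-1) ^ a * C b (N - 1 - a)) ∧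
      ∀ j < N, Z.getD (N + j) 0 - ∑ i ∈ range N, C j i • Z.getD i 0 ∈
        Submodule.span ℝ {f | f ∈ B} := by
  -- the basis
  set z : ℕ → ℝ[X] := fun x => Z.getD x 0 with hz
  set M : ℕ → ℕ → ℝ := fun x y => (((Z.take N ++ B).getD x 0)).coeff y with hM
  have htl : (Z.take N).length = N := by
    rw [List.length_take, hZ]
    omega
  have hlen0 : (Z.take N ++ B).length = n := by
    rw [List.length_append, htl, hB]
  have hM0 : 0 < ε * dt n M := by
    have := hpos (Z.take N) (List.take_sublist _ _) htl
    rwa [vol_dt _ hlen0] at this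
  have hMne : dt n M ≠ 0 := by
    intro h
    rw [h, mul_zero] at hM0
    exact lt_irrefl _ hM0
  set M0 : Matrix (Fin n) (Fin n) ℝ := Matrix.of fun i j : Fin n => M i j with hM0d
  have hunit : IsUnit M0.det := isUnit_iff_ne_zero.2 hMne
  let κ : ℝ[X] → ℕ → ℝ := fun f x =>
    if h : x < n then Matrix.vecMul (fun j : Fin n => f.coeff j) M0⁻¹ ⟨x, h⟩ else 0
  have hκ : ∀ f : ℝ[X], ∀ y < n, ∑ x ∈ range n, κ f x * M x y = f.coeff y := by
    intro f y hy
    have h1 : Matrix.vecMul (Matrix.vecMul (fun j : Fin n => f.coeff j) M0⁻¹) M0 =
        fun j : Fin n => f.coeff j := by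
      rw [Matrix.vecMul_vecMul, Matrix.nonsing_inv_mul _ hunit, Matrix.vecMul_one]
    have h2 := congrFun h1 ⟨y, hy⟩
    simp only at h2
    rw [← h2, Matrix.vecMul, dotProduct, ← Fin.sum_univ_eq_sum_range (fun x => κ f x * M x y)]
    refine Finset.sum_congr rfl fun x _ => ?_
    simp only [κ, x.2, dif_pos, Fin.eta]
    rfl
  have hfull : ∀ f : ℝ[X], f.natDegree < n →
      f = ∑ x ∈ range n, κ f x • (Z.take N ++ B).getD x 0 := by
    intro f hf
    ext y
    rw [finsetSum_coeff]
    simp only [coeff_smul, smul_eq_mul]
    by_cases hy : y < n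
    · rw [← hκ f y hy]
    · rw [coeff_eq_zero_of_natDegree_lt (by omega)]
      symm
      refine Finset.sum_eq_zero fun x hx => ?_
      have hxn : x < (Z.take N ++ B).length := by
        rw [hlen0]
        exact mem_range.1 hx
      have h3 : (Z.take N ++ B).getD x 0 ∈ Z.take N ++ B := by
        rw [List.getD_eq_getElem _ _ hxn]
        exact List.getElem_mem hxn
      have h4 : ((Z.take N ++ B).getD x 0).natDegree < n := by
        rw [List.mem_append] at h3
        rcases h3 with h3 | h3
        · exact hdZ _ (List.mem_of_mem_take h3)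
        · exact hdB _ h3
      rw [coeff_eq_zero_of_natDegree_lt (by omega), mul_zero]
  have hgetl : ∀ x < N, (Z.take N ++ B).getD x 0 = z x := by
    intro x hx
    rw [hz]
    simp only
    rw [List.getD_append _ _ _ _ (by rw [htl]; exact hx), List.getD_eq_getElem _ _ (by
      rw [htl]
      exact hx), List.getElem_take, List.getD_eq_getElem]
  have hκb : ∀ i < N, ∀ k < N, κ (z i) k = if i = k then 1 else 0 := by
    intro i hi k hk
    have hin : i < n := by omega
    have hkn : k < n := by omega
    simp only [κ, hkn, dif_pos]
    have h1 : (fun j : Fin n => (z i).coeff j) = M0 ⟨i, hin⟩ := by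
      funext j
      simp only [hM0d, Matrix.of_apply, hM]
      rw [hgetl i hi]
    have h2 : Matrix.vecMul (M0 ⟨i, hin⟩) M0⁻¹ = (M0 * M0⁻¹) ⟨i, hin⟩ := rfl
    rw [h1, h2, Matrix.mul_nonsing_inv _ hunit, Matrix.one_apply]
    simp only [Fin.mk.injEq]
  refine ⟨fun j i => κ (z (N + j)) i, ?_, ?_⟩
  · refine stp_of_config N (fun i k => if i < N then (if i = k then 1 else 0) else κ (z i) k)
      (fun j i => κ (z (N + j)) i) ?_ ?_
    · intro j _ k hk
      simp only [show ¬ (N + j < N) by omega, if_false]
      rw [Finset.sum_eq_single k]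
      · simp [hk]
      · intro i hi hik
        rw [mem_range] at hi
        simp [hi, hik]
      · intro h
        exact absurd (mem_range.2 hk) h
    · intro J hJ hJ2
      set L : List ℝ[X] := List.ofFn (fun x : Fin N => z (J x)) with hL
      have hLlen : L.length = N := by simp [hL]
      have hsub : L.Sublist Z := by
        rw [List.sublist_iff_exists_fin_orderEmbedding_get_eq]
        let f : Fin L.length → Fin Z.length := fun x => ⟨J x, by
          rw [hZ]
          exact hJ2 x (by
            have := x.2
            omega)⟩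
        have hf : StrictMono f := by
          intro x y hxy
          rw [Fin.lt_def]
          exact hJ x y hxy (by
            have := y.2
            omega)
        refine ⟨OrderEmbedding.ofStrictMono f hf, fun x => ?_⟩
        have h5 : J x < Z.length := by
          rw [hZ]
          exact hJ2 x (by
            have := x.2
            omega)
        simp only [List.get_eq_getElem, hL, List.getElem_ofFn]
        show z (J x) = _
        rw [hz]
        simp only
        rw [List.getD_eq_getElem _ _ h5]
        rfl
      have h1 := hpos L hsub hLlen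
      have hlen : (L ++ B).length = n := by
        rw [List.length_append, hLlen, hB]
      rw [vol_dt _ hlen] at h1
      set K : ℕ → ℕ → ℝ := fun x w => if x < N then κ (z (J x)) w else if x = w then 1 else 0
        with hK
      have h2 : dt n (fun x y => ((L ++ B).getD x 0).coeff y) = dt n K * dt n M := by
        rw [← dt_mul]
        refine dt_congr fun x hx y hy => ?_
        by_cases hxN : x < N
        · rw [List.getD_append _ _ _ _ (by rw [hLlen]; exact hxN),
            List.getD_eq_getElem _ _ (by rw [hLlen]; exact hxN)]
          simp only [hL, List.getElem_ofFn, hK, hxN, if_true]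
          rw [hκ _ y hy]
        · simp only [hK, hxN, if_false]
          rw [Finset.sum_eq_single x]
          · rw [if_pos rfl, one_mul, hM]
            simp only
            rw [List.getD_append_right _ _ _ _ (by rw [hLlen]; omega),
              List.getD_append_right _ _ _ _ (by rw [htl]; omega), hLlen, htl]
          · intro w _ hw
            rw [if_neg (Ne.symm hw), zero_mul]
          · intro h
            exact absurd (mem_range.2 hx) h
      have h3 : dt n K = dt N K := by
        obtain ⟨k, hk⟩ : ∃ k, n = N + k := ⟨B.length, hB.symm⟩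
        rw [hk]
        refine dt_block N k K fun x hx y => ?_
        simp only [hK]
        rw [if_neg (by omega)]
      have h4 : dt N (fun x y => if J x < N then (if J x = y then 1 else 0) else κ (z (J x)) y) =
          dt N K := by
        refine dt_congr fun x hx y hy => ?_
        simp only [hK, hx, if_true]
        split_ifs with h5 h6
        · rw [hκb _ h5 y hy, if_pos h6]
        · rw [hκb _ h5 y hy, if_neg h6]
        · rfl
      rw [h4]
      rw [h2, h3] at h1
      have h5 : 0 < dt N K * (ε * dt n M) := by
        calc (0 : ℝ) < _ := h1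
          _ = _ := by ring
      exact pos_of_mul_pos_left h5 hM0.le
  · intro j hj
    have h1 := hfull (z (N + j)) (by
      rw [hz]
      simp only
      rw [List.getD_eq_getElem _ _ (by rw [hZ]; omega)]
      exact hdZ _ (List.getElem_mem _))
    show z (N + j) - ∑ i ∈ range N, κ (z (N + j)) i • z i ∈ _
    have h2 : ∑ x ∈ range n, κ (z (N + j)) x • (Z.take N ++ B).getD x 0 =
        ∑ x ∈ range N, κ (z (N + j)) x • z x +
          ∑ x ∈ range B.length, κ (z (N + j)) (N + x) • B.getD x 0 := by
      rw [← hB, Finset.sum_range_add]
      congr 1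
      · refine Finset.sum_congr rfl fun x hx => ?_
        rw [hgetl x (mem_range.1 hx)]
      · refine Finset.sum_congr rfl fun x hx => ?_
        rw [List.getD_append_right _ _ _ _ (by rw [htl]; omega), htl, Nat.add_sub_cancel_left]
    rw [h2] at h1
    nth_rewrite 1 [h1]
    rw [add_sub_cancel_left]
    refine Submodule.sum_mem _ fun x hx => Submodule.smul_mem _ _ (Submodule.subset_span ?_)
    rw [Set.mem_setOf_eq, List.getD_eq_getElem _ _ (mem_range.1 hx)]
    exact List.getElem_mem _

end

end Pool.TPR
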