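import Pool.Agent.Helper53.TPR.Coord

/-! Rotation and reflection of totally positive lists. -/

namespace Pool.TPR

open Polynomial ExteriorAlgebra Pool.CSC

noncomputable section

/-- all selections of `N` vectors have volumes of the same sign -/
def TPQ (n N : ℕ) (B Z : List ℝ[X]) : Prop :=
  ∃ ε : ℝ, ∀ L : List ℝ[X], L.Sublist Z → L.length = N → 0 < ε * vol n (W (L ++ B))

lemma TPQ.rotate {n N : ℕ} {B A A' : List ℝ[X]} (h : TPQ n N B (A ++ A')) :
    TPQ n N B (A' ++ A.map fun f => ((-1 : ℝ) ^ (N + 1)) • f) := by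
  obtain ⟨ε, h⟩ := h
  refine ⟨ε, fun L hL hlen => ?_⟩
  rw [List.sublist_append_iff] at hL
  obtain ⟨L1, L2, rfl, hL1, hL2⟩ := hL
  rw [List.sublist_map_iff] at hL2
  obtain ⟨L2', hL2', rfl⟩ := hL2
  have h1 := h (L2' ++ L1) (hL2'.append hL1) (by
    rw [List.length_append] at hlen ⊢
    rw [List.length_map] at hlen
    omega)
  refine lt_of_lt_of_eq h1 ?_
  rw [List.length_append, List.length_map] at hlen
  have h2 : W (L1 ++ L2'.map (fun f => ((-1 : ℝ) ^ (N + 1)) • f) ++ B) = W (L2' ++ L1 ++ B) := by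
    rw [W_append, W_append, W_map_smul, mul_smul_comm, W_comm L1 L2', smul_smul, smul_mul_assoc,
      W_append, W_append]
    have h3 : (((-1 : ℝ) ^ (N + 1)) ^ L2'.length * (-1) ^ (L1.length * L2'.length)) = 1 := by
      rw [← pow_mul, ← pow_add, ← hlen]
      have : Even ((L1.length + L2'.length + 1) * L2'.length + L1.length * L2'.length) := by
        have e1 := Nat.even_mul_succ_self L2'.length
        have e2 : (L1.length + L2'.length + 1) * L2'.length + L1.length * L2'.length =
            L2'.length * (L2'.length + 1) + 2 * (L1.length * L2'.length) := by ring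
        rw [e2]
        exact e1.add (even_two_mul _)
      exact this.neg_one_pow
    rw [h3, one_smul]
  rw [h2]

/-- the sign of the reversal -/
def rs : ℕ → ℝ
  | 0 => 1
  | k + 1 => rs k * (-1) ^ k

lemma rs_mul (k : ℕ) : rs k * rs k = 1 := by
  induction k with
  | zero => simp [rs]
  | succ k ih =>
    have : ((-1 : ℝ)) ^ k * (-1) ^ k = 1 := by
      rw [← mul_pow]
      norm_num
    rw [rs]
    linear_combination ((-1 : ℝ) ^ k * (-1) ^ k) * ih + this

lemma W_reverse (L : List ℝ[X]) : W L.reverse = rs L.length • W L := by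
  induction L with
  | nil => simp [rs]
  | cons u L ih =>
    have h1 := W_mul_ι L u 1
    rw [mul_one, mul_one] at h1
    rw [List.reverse_cons, W_append, ih, W_cons, W_nil, mul_one, smul_mul_assoc, h1, smul_smul,
      W_cons, List.length_cons, rs]

lemma TPQ.reverse {n N : ℕ} {B Z : List ℝ[X]} (h : TPQ n N B Z) : TPQ n N B Z.reverse := by
  obtain ⟨ε, h⟩ := h
  refine ⟨rs N * ε, fun L hL hlen => ?_⟩
  have h1 := h L.reverse (by
    have := hL.reverse
    rwa [List.reverse_reverse] at this) (by rw [List.length_reverse, hlen])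
  refine lt_of_lt_of_eq h1 ?_
  rw [W_append, W_reverse, hlen, smul_mul_assoc, map_smul, smul_eq_mul, ← W_append]
  ring

/-- same length and same span -/
def SE (L L' : List ℝ[X]) : Prop :=
  L.length = L'.length ∧ Submodule.span ℝ {f | f ∈ L} = Submodule.span ℝ {f | f ∈ L'}

lemma SE.refl (L : List ℝ[X]) : SE L L := ⟨rfl, rfl⟩

lemma SE.trans {L L' L'' : List ℝ[X]} (h : SE L L') (h' : SE L' L'') : SE L L'' :=
  ⟨h.1.trans h'.1, h.2.trans h'.2⟩

lemma SE_reverse (L : List ℝ[X]) : SE L.reverse L := by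
  refine ⟨List.length_reverse, ?_⟩
  congr 1
  ext f
  simp

lemma SE_smul {c : ℝ} (hc : c ≠ 0) (L : List ℝ[X]) : SE (L.map fun f => c • f) L := by
  refine ⟨List.length_map _, ?_⟩
  apply le_antisymm
  · rw [Submodule.span_le]
    intro f hf
    rw [Set.mem_setOf_eq, List.mem_map] at hf
    obtain ⟨g, hg, rfl⟩ := hf
    exact Submodule.smul_mem _ _ (Submodule.subset_span hg)
  · rw [Submodule.span_le]
    intro f hf
    have h1 : f = c⁻¹ • (c • f) := by rw [smul_smul, inv_mul_cancel₀ hc, one_smul]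
    rw [h1]
    refine Submodule.smul_mem _ _ (Submodule.subset_span ?_)
    rw [Set.mem_setOf_eq, List.mem_map]
    exact ⟨f, hf, rfl⟩

theorem arrange {n N : ℕ} {B : List ℝ[X]} (Y : Fin 4 → List ℝ[X])
    (h : TPQ n N B (Y 0 ++ Y 1 ++ Y 2 ++ Y 3)) (hlen : ∑ i, (Y i).length = 2 * N) :
    ∃ (π : Equiv.Perm (Fin 4)) (Y' : Fin 4 → List ℝ[X]), (∀ i, SE (Y' i) (Y i)) ∧
      TPQ n N B (Y' (π 0) ++ Y' (π 1) ++ Y' (π 2) ++ Y' (π 3)) ∧
      N ≤ (Y (π 0)).length + (Y (π 1)).length ∧ N ≤ (Y (π 0)).length + (Y (π 2)).length := by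
  rw [Fin.sum_univ_four] at hlen
  have hc : ((-1 : ℝ)) ^ (N + 1) ≠ 0 := pow_ne_zero _ (by norm_num)
  have hrot : TPQ n N B (Y 2 ++ Y 3 ++ (Y 0).map (fun f => ((-1 : ℝ) ^ (N + 1)) • f) ++
      (Y 1).map (fun f => ((-1 : ℝ) ^ (N + 1)) • f)) := by
    have h1 : TPQ n N B ((Y 0 ++ Y 1) ++ (Y 2 ++ Y 3)) := by
      simpa [List.append_assoc] using h
    have h2 := h1.rotate
    simpa [List.append_assoc, List.map_append] using h2
  by_cases h12 : N ≤ (Y 0).length + (Y 1).length
  · by_cases h13 : N ≤ (Y 0).length + (Y 2).length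
    · exact ⟨1, Y, fun i => SE.refl _, h, h12, h13⟩
    · -- order 1, 0, 3, 2
      have h2 := hrot.reverse
      let π : Equiv.Perm (Fin 4) := Equiv.swap 0 1 * Equiv.swap 2 3
      have e0 : π 0 = 1 := by decide
      have e1 : π 1 = 0 := by decide
      have e2 : π 2 = 3 := by decide
      have e3 : π 3 = 2 := by decide
      refine ⟨π, ![((Y 0).map fun f => ((-1 : ℝ) ^ (N + 1)) • f).reverse,
        ((Y 1).map fun f => ((-1 : ℝ) ^ (N + 1)) • f).reverse, (Y 2).reverse, (Y 3).reverse],
        ?_, ?_, ?_, ?_⟩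
      · intro i
        fin_cases i
        · exact (SE_reverse _).trans (SE_smul hc _)
        · exact (SE_reverse _).trans (SE_smul hc _)
        · exact SE_reverse _
        · exact SE_reverse _
      · rw [e0, e1, e2, e3]
        simpa [List.append_assoc, List.reverse_append] using h2
      · rw [e0, e1]
        omega
      · rw [e0, e2]
        omega
  · by_cases h13 : N ≤ (Y 0).length + (Y 2).length
    · -- order 2, 3, 0, 1
      let π : Equiv.Perm (Fin 4) := Equiv.swap 0 2 * Equiv.swap 1 3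
      have e0 : π 0 = 2 := by decide
      have e1 : π 1 = 3 := by decide
      have e2 : π 2 = 0 := by decide
      have e3 : π 3 = 1 := by decide
      refine ⟨π, ![(Y 0).map fun f => ((-1 : ℝ) ^ (N + 1)) • f,
        (Y 1).map fun f => ((-1 : ℝ) ^ (N + 1)) • f, Y 2, Y 3], ?_, ?_, ?_, ?_⟩
      · intro i
        fin_cases i
        · exact SE_smul hc _
        · exact SE_smul hc _
        · exact SE.refl _
        · exact SE.refl _
      · rw [e0, e1, e2, e3]
        simpa [List.append_assoc] using hrot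
      · rw [e0, e1]
        omega
      · rw [e0, e2]
        omega
    · -- order 3, 2, 1, 0
      have h2 := h.reverse
      let π : Equiv.Perm (Fin 4) := Equiv.swap 0 3 * Equiv.swap 1 2
      have e0 : π 0 = 3 := by decide
      have e1 : π 1 = 2 := by decide
      have e2 : π 2 = 1 := by decide
      have e3 : π 3 = 0 := by decide
      refine ⟨π, fun i => (Y i).reverse, fun i => SE_reverse _, ?_, ?_, ?_⟩
      · rw [e0, e1, e2, e3]
        simpa [List.append_assoc, List.reverse_append] using h2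
      · rw [e0, e1]
        omega
      · rw [e0, e2]
        omega

end

end Pool.TPR
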