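import Pool.Agent.Helper53.TPR.Basic

/-! The pencil of a block matrix and its roots, for strictly totally positive matrices. -/

namespace Pool.TPR

open Matrix Polynomial Finset

section Ring

variable {R S : Type*} [CommRing R] [CommRing S]

lemma map_dt (f : R →+* S) (n : ℕ) (A : ℕ → ℕ → R) :
    f (dt n A) = dt n (fun i j => f (A i j)) := by
  rw [dt, RingHom.map_det, dt]
  congr 1

/-- the weights -/
def wt (h p : ℕ) (σ x : R) (i j : ℕ) : R := if j < p then 1 else if i < h then x + σ else x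

/-- the pencil: in a matrix with `h` top rows and `p` left columns, the top right block is
multiplied by `x + σ` and the bottom right block by `x` -/
def FF (N h p : ℕ) (σ : R) (A : ℕ → ℕ → R) (x : R) : R := dt N (fun i j => wt h p σ x i j * A i j)

lemma map_FF (f : R →+* S) (N h p : ℕ) (σ : R) (A : ℕ → ℕ → R) (x : R) :
    f (FF N h p σ A x) = FF N h p (f σ) (fun i j => f (A i j)) (f x) := by
  rw [FF, map_dt, FF]
  refine dt_congr fun i _ j _ => ?_
  rw [map_mul]
  congr 1
  rw [wt, wt]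
  split_ifs <;> simp

lemma wt_ss (h p : ℕ) (σ x : R) (i j : ℕ) :
    wt (h + 1) (p + 1) σ x (i + 1) (j + 1) = wt h p σ x i j := by
  rw [wt, wt]
  simp only [add_lt_add_iff_right]

lemma wt_si (h p : ℕ) (σ x : R) (i j : ℕ) : wt (h + 1) p σ x (i + 1) j = wt h p σ x i j := by
  rw [wt, wt]
  simp only [add_lt_add_iff_right]

lemma wt_is (h p : ℕ) (σ x : R) (i j : ℕ) : wt h (p + 1) σ x i (j + 1) = wt h p σ x i j := by
  rw [wt, wt]
  simp only [add_lt_add_iff_right]

lemma prod_ite_lt (N p : ℕ) (hp : p ≤ N) (a b : R) :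
    ∏ j ∈ range N, (if j < p then a else b) = a ^ p * b ^ (N - p) := by
  obtain ⟨q, rfl⟩ := Nat.exists_eq_add_of_le hp
  rw [prod_range_add, Nat.add_sub_cancel_left]
  congr 1
  · rw [prod_congr rfl (fun j hj => if_pos (mem_range.1 hj)), prod_const, card_range]
  · rw [prod_congr rfl (fun j _ => if_neg (by omega)), prod_const, card_range]

/-- opposite sign -/
lemma FF_neg (N h p : ℕ) (hp : p ≤ N) (σ : R) (A : ℕ → ℕ → R) (x : R) :
    FF N h p σ A x = (-1) ^ (N - p) * FF N h p (-σ) A (-x) := by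
  have h1 := dt_mul_col N (fun j => if j < p then (1 : R) else -1)
    (fun i j => wt h p (-σ) (-x) i j * A i j)
  rw [prod_ite_lt N p hp, one_pow, one_mul] at h1
  rw [FF, FF, ← h1]
  refine dt_congr fun i _ j _ => ?_
  rw [wt, wt]
  split_ifs <;> ring

/-- transposition (sign `σ = 1`) -/
lemma FF_transpose (N h p : ℕ) (hh : h ≤ N) (hp : p ≤ N) (A : ℕ → ℕ → R) (x : R) :
    (x + 1) ^ (N - h) * FF N h p 1 A x = (x + 1) ^ (N - p) * FF N p h 1 (fun i j => A j i) x := by
  have h1 := dt_mul_row N (fun i => if i < h then (1 : R) else x + 1)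
    (fun i j => wt h p 1 x i j * A i j)
  have h2 := dt_mul_col N (fun j => if j < p then (1 : R) else x + 1)
    (fun i j => wt p h 1 x j i * A i j)
  have h3 : FF N p h 1 (fun i j => A j i) x = dt N (fun i j => wt p h 1 x j i * A i j) := by
    rw [FF, ← dt_transpose]
  rw [prod_ite_lt N h hh, one_pow, one_mul] at h1
  rw [prod_ite_lt N p hp, one_pow, one_mul] at h2
  rw [h3, ← h2, FF, ← h1]
  refine dt_congr fun i _ j _ => ?_
  rw [wt, wt]
  split_ifs <;> ring

/-- transposition with respect to the other diagonal -/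
lemma FF_anti (N h p : ℕ) (hh : h ≤ N) (hp : p ≤ N) (σ : R) (A : ℕ → ℕ → R) (x : R) :
    x ^ h * FF N h p σ A x =
      x ^ (N - p) * FF N (N - p) (N - h) σ (fun i j => A (N - 1 - j) (N - 1 - i)) x := by
  have h1 := dt_mul_row N (fun i => if i < h then x else (1 : R))
    (fun i j => wt h p σ x i j * A i j)
  have h2 := dt_mul_col N (fun j => if j < p then (1 : R) else x)
    (fun i j => wt (N - p) (N - h) σ x (N - 1 - j) (N - 1 - i) * A i j)
  have h3 : FF N (N - p) (N - h) σ (fun i j => A (N - 1 - j) (N - 1 - i)) x =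
      dt N (fun i j => wt (N - p) (N - h) σ x (N - 1 - j) (N - 1 - i) * A i j) := by
    rw [FF, ← dt_transpose, ← dt_rev]
    refine dt_congr fun i hi j hj => ?_
    have e1 : N - 1 - (N - 1 - i) = i := by omega
    have e2 : N - 1 - (N - 1 - j) = j := by omega
    simp only [e1, e2]
  rw [prod_ite_lt N h hh, one_pow, mul_one] at h1
  rw [prod_ite_lt N p hp, one_pow, one_mul] at h2
  rw [h3, ← h2, FF, ← h1]
  refine dt_congr fun i hi j hj => ?_
  have e1 : N - 1 - i < N - h ↔ h ≤ i := by omega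
  have e2 : N - 1 - j < N - p ↔ p ≤ j := by omega
  rw [wt, wt]
  simp only [e1, e2]
  by_cases a1 : i < h <;> by_cases a2 : j < p
  · simp [a1, a2, not_le.2 a1, not_le.2 a2]
  · simp [a1, a2, not_le.2 a1, not_lt.1 a2]
  · simp [a1, a2, not_lt.1 a1]
  · simp [a1, a2, not_lt.1 a1]

end Ring

/-- the pencil as a polynomial -/
noncomputable def GG (N h p : ℕ) (σ : ℝ) (A : ℕ → ℕ → ℝ) : ℝ[X] :=
  FF N h p (C σ) (fun i j => C (A i j)) X

lemma eval_GG (N h p : ℕ) (σ : ℝ) (A : ℕ → ℕ → ℝ) (x : ℝ) :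
    (GG N h p σ A).eval x = FF N h p σ A x := by
  have := map_FF (evalRingHom x) N h p (C σ) (fun i j => C (A i j)) X
  simpa [GG] using this

lemma X_pow_mul_GG (N h p : ℕ) (hp : p ≤ N) (σ : ℝ) (A : ℕ → ℕ → ℝ) :
    X ^ p * GG N h p σ A = det ((X : ℝ[X]) • (Matrix.of fun i j : Fin N => A i j).map C +
      (Matrix.of fun i j : Fin N =>
        if (j : ℕ) < p then 0 else if (i : ℕ) < h then σ * A i j else 0).map C) := by
  have h1 := dt_mul_col N (fun j => if j < p then (X : ℝ[X]) else 1)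
    (fun i j => wt h p (C σ) X i j * C (A i j))
  rw [prod_ite_lt N p hp, one_pow, mul_one] at h1
  rw [GG, FF, ← h1, dt]
  congr 1
  ext1 i j
  simp only [Matrix.of_apply, Matrix.add_apply, Matrix.smul_apply, Matrix.map_apply, smul_eq_mul, wt]
  split_ifs
  · simp
  · simp only [map_mul]
    ring
  · simp

lemma natDegree_GG_le (N h p : ℕ) (hp : p ≤ N) (σ : ℝ) (A : ℕ → ℕ → ℝ) :
    (GG N h p σ A).natDegree ≤ N - p := by
  rw [natDegree_le_iff_coeff_eq_zero]
  intro k hk
  have h1 := natDegree_det_X_add_C_le (Matrix.of fun i j : Fin N => A i j)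
    (Matrix.of fun i j : Fin N => if (j : ℕ) < p then 0 else if (i : ℕ) < h then σ * A i j else 0)
  rw [← X_pow_mul_GG N h p hp, Fintype.card_fin] at h1
  rw [← coeff_X_pow_mul (GG N h p σ A) p k]
  exact coeff_eq_zero_of_natDegree_lt (by omega)

lemma coeff_GG (N h p : ℕ) (hp : p ≤ N) (σ : ℝ) (A : ℕ → ℕ → ℝ) :
    (GG N h p σ A).coeff (N - p) = dt N A := by
  have h1 := coeff_det_X_add_C_card (Matrix.of fun i j : Fin N => A i j)
    (Matrix.of fun i j : Fin N => if (j : ℕ) < p then 0 else if (i : ℕ) < h then σ * A i j else 0)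
  rw [← X_pow_mul_GG N h p hp, Fintype.card_fin] at h1
  rw [← coeff_X_pow_mul (GG N h p σ A) p (N - p), Nat.sub_add_cancel hp, h1, dt]

/-- locating the roots of a polynomial with sign changes -/
lemma exists_roots (m : ℕ) (G : ℝ[X]) (L : ℝ) (hL : 0 < L) (hd : G.natDegree ≤ m)
    (hc : G.coeff m = L) (s : ℕ → ℝ) (hs : ∀ i, i + 1 < m → s i < s (i + 1))
    (hsg : ∀ i < m, 0 < (-1) ^ (m - i) * G.eval (s i)) :
    ∃ α : ℕ → ℝ, (∀ i < m, s i < α i) ∧ (∀ i, i + 1 < m → α i < s (i + 1)) ∧
      ∀ x, G.eval x = L * ∏ i ∈ range m, (x - α i) := by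
  have hG : G.natDegree = m := by
    apply le_antisymm hd
    apply le_natDegree_of_ne_zero
    rw [hc]
    exact hL.ne'
  have hroot : ∀ i < m, ∃ a, s i < a ∧ (i + 1 < m → a < s (i + 1)) ∧ G.eval a = 0 := by
    intro i hi
    by_cases h1 : i + 1 < m
    · have e1 := hsg i hi
      have e2 := hsg (i + 1) h1
      have e3 : m - i = (m - (i + 1)) + 1 := by omega
      rw [e3, pow_succ] at e1
      rcases neg_one_pow_eq_or ℝ (m - (i + 1)) with h2 | h2
      · rw [h2] at e1 e2
        obtain ⟨a, ha, ha'⟩ := intermediate_value_Ioo (hs i h1).le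
          (f := fun x => G.eval x) (G.continuous.continuousOn)
          (show (0 : ℝ) ∈ Set.Ioo (G.eval (s i)) (G.eval (s (i + 1))) from
            ⟨by linarith, by linarith⟩)
        exact ⟨a, ha.1, fun _ => ha.2, ha'⟩
      · rw [h2] at e1 e2
        obtain ⟨a, ha, ha'⟩ := intermediate_value_Ioo' (hs i h1).le
          (f := fun x => G.eval x) (G.continuous.continuousOn)
          (show (0 : ℝ) ∈ Set.Ioo (G.eval (s (i + 1))) (G.eval (s i)) from
            ⟨by linarith, by linarith⟩)
        exact ⟨a, ha.1, fun _ => ha.2, ha'⟩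
    · have e1 := hsg i hi
      have e3 : m - i = 1 := by omega
      rw [e3, pow_one] at e1
      have hdeg : 0 < G.degree := by
        rw [← natDegree_pos_iff_degree_pos, hG]
        omega
      have hlead : 0 ≤ G.leadingCoeff := by
        rw [leadingCoeff, hG, hc]
        exact hL.le
      have ht := G.tendsto_atTop_of_leadingCoeff_nonneg hdeg hlead
      obtain ⟨T, hT, hT'⟩ := ((ht.eventually_gt_atTop 0).and
        (Filter.eventually_gt_atTop (s i))).exists
      obtain ⟨a, ha, ha'⟩ := intermediate_value_Ioo hT'.le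
        (f := fun x => G.eval x) (G.continuous.continuousOn)
        (show (0 : ℝ) ∈ Set.Ioo (G.eval (s i)) (G.eval T) from ⟨by linarith, hT⟩)
      exact ⟨a, ha.1, fun h => absurd h h1, ha'⟩
  choose! α ha1 ha2 ha3 using hroot
  refine ⟨α, ha1, fun i hi => ha2 i (by omega) hi, ?_⟩
  have hstep : ∀ i, i + 1 < m → α i < α (i + 1) := fun i hi =>
    (ha2 i (by omega) hi).trans (ha1 (i + 1) hi)
  have hmono : ∀ i j, i < j → j < m → α i < α j := by
    intro i j hij
    induction j, hij using Nat.le_induction with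
    | base => exact fun h => hstep i h
    | succ k hk ih => exact fun h => (ih (by omega)).trans (hstep k h)
  have hinj : Set.InjOn α (range m : Set ℕ) := by
    intro i hi j hj hij
    rw [coe_range, Set.mem_Iio] at hi hj
    rcases lt_trichotomy i j with h | h | h
    · exact absurd hij (hmono i j h hj).ne
    · exact h
    · exact absurd hij (hmono j i h hi).ne'
  set P : ℝ[X] := ∏ i ∈ range m, (X - C (α i)) with hP
  have hPm : P.Monic := monic_prod_of_monic _ _ fun i _ => monic_X_sub_C _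
  have hPd : P.natDegree = m := by
    rw [hP, natDegree_prod_of_monic _ _ fun i _ => monic_X_sub_C _]
    simp
  have hcard : ((range m).image α).card = m := by
    rw [card_image_of_injOn hinj, card_range]
  have heq : G = C L * P := by
    refine eq_of_degree_sub_lt_of_eval_finset_eq ((range m).image α) ?_ ?_
    · rw [hcard, degree_lt_iff_coeff_zero]
      intro k hk
      rcases Nat.eq_or_lt_of_le hk with rfl | hk
      · rw [coeff_sub, hc, coeff_C_mul]
        have : P.coeff m = 1 := by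
          rw [← hPd]
          exact hPm.coeff_natDegree
        rw [this, mul_one, sub_self]
      · rw [coeff_sub, coeff_C_mul, coeff_eq_zero_of_natDegree_lt (by omega),
          coeff_eq_zero_of_natDegree_lt (p := P) (by omega), mul_zero, sub_zero]
    · intro x hx
      rw [mem_image] at hx
      obtain ⟨i, hi, rfl⟩ := hx
      rw [mem_range] at hi
      rw [ha3 i hi, eval_mul, hP, eval_prod, prod_eq_zero (mem_range.2 hi), mul_zero]
      simp
  intro x
  rw [heq, eval_mul, eval_C, hP, eval_prod]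
  simp

/-- the sign of a product -/
lemma sign_prod (n i : ℕ) (hi : i ≤ n) (γ : ℕ → ℝ) (x : ℝ) (h1 : ∀ k < i, γ k < x)
    (h2 : ∀ k, i ≤ k → k < n → x < γ k) : 0 < (-1) ^ (n - i) * ∏ k ∈ range n, (x - γ k) := by
  obtain ⟨t, rfl⟩ := Nat.exists_eq_add_of_le hi
  rw [prod_range_add, Nat.add_sub_cancel_left]
  have e1 : ∏ k ∈ range t, (x - γ (i + k)) = (-1) ^ t * ∏ k ∈ range t, (γ (i + k) - x) := by
    have : ((-1 : ℝ)) ^ t = ∏ _k ∈ range t, (-1 : ℝ) := by rw [prod_const, card_range]
    rw [this, ← prod_mul_distrib]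
    refine prod_congr rfl fun k _ => ?_
    ring
  rw [e1]
  have e2 : ((-1 : ℝ)) ^ t * (-1) ^ t = 1 := by
    rw [← mul_pow]
    norm_num
  have e3 : 0 < ∏ k ∈ range i, (x - γ k) :=
    prod_pos fun k hk => sub_pos.2 (h1 k (mem_range.1 hk))
  have e4 : 0 < ∏ k ∈ range t, (γ (i + k) - x) :=
    prod_pos fun k hk => sub_pos.2 (h2 _ (by omega) (by
      rw [mem_range] at hk
      omega))
  have e5 : (-1 : ℝ) ^ t * ((∏ k ∈ range i, (x - γ k)) * ((-1) ^ t * ∏ k ∈ range t, (γ (i + k) - x)))
      = (∏ k ∈ range i, (x - γ k)) * ∏ k ∈ range t, (γ (i + k) - x) := by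
    linear_combination ((∏ k ∈ range i, (x - γ k)) * ∏ k ∈ range t, (γ (i + k) - x)) * e2
  rw [e5]
  exact mul_pos e3 e4

/-- the value at `0` -/
lemma FF_zero_pos (h p q : ℕ) (hq : q ≤ h) (hh : h ≤ p) (A : ℕ → ℕ → ℝ) (hA : STP (p + q) A) :
    0 < (-1) ^ q * FF (p + q) h p ((-1) ^ (p + h)) A 0 := by
  set N := p + q with hN
  have h1 := dt_mul_col N (fun j => if j < p then (1 : ℝ) else (-1) ^ (p + h))
    (fun i j => if h ≤ i ∧ p ≤ j then 0 else A i j)
  rw [prod_ite_lt N p (by omega), one_pow, one_mul] at h1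
  have h2 : FF N h p ((-1) ^ (p + h)) A 0 = dt N (fun i j => (if j < p then (1 : ℝ) else
      (-1) ^ (p + h)) * (if h ≤ i ∧ p ≤ j then 0 else A i j)) := by
    rw [FF]
    refine dt_congr fun i _ j _ => ?_
    rw [wt]
    by_cases a1 : j < p
    · simp [a1, not_le.2 a1]
    · by_cases a2 : i < h
      · simp [a1, a2, not_le.2 a2]
      · simp [a1, a2, not_lt.1 a2, not_lt.1 a1]
  have h3 : dt N (fun i j => if h ≤ i ∧ p ≤ j then 0 else A i j) =
      dt N (zb (N - h) q (fun i j => A (N - 1 - i) (N - 1 - j))) := by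
    rw [← dt_rev]
    refine dt_congr fun i hi j hj => ?_
    rw [zb]
    have e1 : h ≤ N - 1 - i ↔ i < N - h := by omega
    have e2 : p ≤ N - 1 - j ↔ j < q := by omega
    simp only [e1, e2]
  have h4 := zero_block N (N - h) q _ hA.rev (by omega)
  rw [h2, h1, h3]
  have h5 : N - p = q := by omega
  rw [h5]
  refine lt_of_lt_of_eq h4 ?_
  have h6 : ((-1 : ℝ)) ^ q * ((-1) ^ (p + h)) ^ q = (-1) ^ ((N - h) * q) := by
    rw [← pow_mul, ← pow_add]
    have h7 : ∃ k, q + (p + h) * q + (N - h) * q = 2 * k := by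
      obtain ⟨l, hl⟩ : ∃ l, N - h = l := ⟨_, rfl⟩
      rw [hl]
      have h8 : p + q = h + l := by omega
      obtain ⟨k, hk⟩ : ∃ k, q * (q + 1) = 2 * k := (Nat.even_mul_succ_self q).two_dvd
      refine ⟨k + p * q, ?_⟩
      have : (h + l) * q = (p + q) * q := by rw [h8]
      nlinarith
    obtain ⟨k, hk⟩ := h7
    have h9 : ((-1 : ℝ)) ^ (q + (p + h) * q) * (-1) ^ ((N - h) * q) = 1 := by
      rw [← pow_add, hk, pow_mul]
      norm_num
    have h10 : ((-1 : ℝ)) ^ ((N - h) * q) * (-1) ^ ((N - h) * q) = 1 := by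
      rw [← mul_pow]
      norm_num
    linear_combination ((-1 : ℝ)) ^ ((N - h) * q) * h9 - ((-1 : ℝ) ^ (q + (p + h) * q)) * h10
  linear_combination (-dt N (zb (N - h) q fun i j => A (N - 1 - i) (N - 1 - j))) * h6

/-- Theorem R in the case `q ≤ h ≤ p`, with the sign of the comparison pencil -/
theorem roots_aux (N : ℕ) : ∀ (h p q : ℕ) (A : ℕ → ℕ → ℝ), p + q = N → q ≤ h → h ≤ p → STP N A →
    ∃ α : ℕ → ℝ, (∀ i < q, 0 < α i) ∧ (∀ i, i + 1 < q → α i < α (i + 1)) ∧
      (∀ x, FF N h p ((-1) ^ (p + h)) A x = dt N A * ∏ i ∈ range q, (x - α i)) ∧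
      ∀ i < q, 0 < (-1) ^ (q - 1 - i) * FF (N - 1) (h - 1) (p - 1) ((-1) ^ (p + h))
        (fun i j => A (i + 1) (j + 1)) (α i) := by
  induction N using Nat.strong_induction_on with
  | _ N ih =>
    intro h p q A hN hq hh hA
    rcases Nat.eq_zero_or_pos q with rfl | hq0
    · refine ⟨fun _ => 0, by simp, by simp, ?_, by simp⟩
      intro x
      rw [range_zero, prod_empty, mul_one, FF]
      refine dt_congr fun i _ j hj => ?_
      rw [wt, if_pos (by omega), one_mul]
    obtain ⟨q', rfl⟩ : ∃ q', q = q' + 1 := ⟨q - 1, by omega⟩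
    obtain ⟨h', rfl⟩ : ∃ h', h = h' + 1 := ⟨h - 1, by omega⟩
    obtain ⟨p', rfl⟩ : ∃ p', p = p' + 1 := ⟨p - 1, by omega⟩
    obtain ⟨m, rfl⟩ : ∃ m, N = m + 2 := ⟨N - 2, by omega⟩
    set σ : ℝ := (-1) ^ (p' + 1 + (h' + 1)) with hσ
    simp only [Nat.add_sub_cancel, show m + 2 - 1 = m + 1 by omega]
    -- the Desnanot-Jacobi identity
    have dj : ∀ x : ℝ, FF (m + 2) (h' + 1) (p' + 1) σ A x *
        FF m h' p' σ (fun i j => A (i + 1) (j + 1)) x =
        FF (m + 1) (h' + 1) (p' + 1) σ A x * FF (m + 1) h' p' σ (fun i j => A (i + 1) (j + 1)) x -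
        FF (m + 1) h' (p' + 1) σ (fun i j => A (i + 1) j) x *
          FF (m + 1) (h' + 1) p' σ (fun i j => A i (j + 1)) x := by
      intro x
      have := desnanot m (fun i j => wt (h' + 1) (p' + 1) σ x i j * A i j)
      simp only [wt_ss, wt_si, wt_is] at this
      exact this
    -- the comparison pencil
    obtain ⟨γ, hγ0, hγm, hγF, hγE⟩ := ih (m + 1) (by omega) (h' + 1) (p' + 1) q' A (by omega)
      (by omega) (by omega) (hA.mono (by omega))
    rw [← hσ] at hγF hγE
    simp only [Nat.add_sub_cancel] at hγE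
    -- positivity of the other two pencils
    have hO : ∀ (h₁ p₁ q₁ : ℕ) (B : ℕ → ℕ → ℝ), p₁ + q₁ = m + 1 → q₁ ≤ h₁ → h₁ ≤ p₁ →
        STP (m + 1) B → ((-1 : ℝ)) ^ (p₁ + h₁) = -σ → ∀ x > 0, 0 < FF (m + 1) h₁ p₁ σ B x := by
      intro h₁ p₁ q₁ B e1 e2 e3 hB e4 x hx
      obtain ⟨δ, hδ0, -, hδF, -⟩ := ih (m + 1) (by omega) h₁ p₁ q₁ B e1 e2 e3 hB
      rw [FF_neg (m + 1) h₁ p₁ (by omega), ← e4, hδF]
      have e5 : m + 1 - p₁ = q₁ := by omega
      have e6 := sign_prod q₁ 0 (by omega) δ (-x) (by omega)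
        (fun k _ hk => by linarith [hδ0 k hk])
      rw [Nat.sub_zero] at e6
      rw [e5]
      have := mul_pos hB.pos e6
      calc (0 : ℝ) < _ := this
        _ = _ := by ring
    have hσ1 : σ = (-1) ^ (p' + h') := by
      rw [hσ, show p' + 1 + (h' + 1) = p' + h' + 2 by ring, pow_add]
      norm_num
    have hO1 : ∀ x > 0, 0 < FF (m + 1) h' (p' + 1) σ (fun i j => A (i + 1) j) x :=
      hO h' (p' + 1) q' _ (by omega) (by omega) (by omega) hA.si (by
        rw [hσ1, show p' + 1 + h' = p' + h' + 1 by ring, pow_succ]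
        ring)
    have hO2 : ∀ x > 0, 0 < FF (m + 1) (h' + 1) p' σ (fun i j => A i (j + 1)) x := by
      intro x hx
      by_cases hc : h' + 1 ≤ p'
      · exact hO (h' + 1) p' (q' + 1) _ (by omega) (by omega) hc hA.is (by
          rw [hσ1, show p' + (h' + 1) = p' + h' + 1 by ring, pow_succ]
          ring) x hx
      · have hhp : h' = p' := by omega
        subst hhp
        have hs1 : σ = 1 := by
          rw [hσ1, ← two_mul, pow_mul]
          norm_num
        have ht := FF_transpose (m + 1) (h' + 1) h' (by omega) (by omega)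
          (fun i j => A i (j + 1)) x
        have hp := hO h' (h' + 1) q' (fun i j => A j (i + 1)) (by omega) (by omega) (by omega)
          hA.is.transpose (by
            rw [hs1, show h' + 1 + h' = 2 * h' + 1 by ring, pow_succ, pow_mul]
            norm_num) x hx
        rw [hs1] at hp ⊢
        have hpos : 0 < (x + 1) ^ (m + 1 - h') *
            FF (m + 1) h' (h' + 1) 1 (fun i j => A j (i + 1)) x :=
          mul_pos (pow_pos (by linarith) _) hp
        rw [← ht] at hpos
        exact pos_of_mul_pos_right hpos (pow_pos (by linarith) _).le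
    -- the sign at the roots of the comparison pencil
    have hγA : ∀ i < q', 0 < (-1) ^ (q' - i) * FF (m + 2) (h' + 1) (p' + 1) σ A (γ i) := by
      intro i hi
      have e1 := dj (γ i)
      have e2 : FF (m + 1) (h' + 1) (p' + 1) σ A (γ i) = 0 := by
        rw [hγF, prod_eq_zero (mem_range.2 hi), mul_zero]
        exact sub_self _
      rw [e2, zero_mul, zero_sub] at e1
      have e3 := mul_pos (hO1 _ (hγ0 i hi)) (hO2 _ (hγ0 i hi))
      have e4 := hγE i hi
      have e5 : q' - i = (q' - 1 - i) + 1 := by omega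
      set FE := FF m h' p' σ (fun i j => A (i + 1) (j + 1)) (γ i)
      set FA := FF (m + 2) (h' + 1) (p' + 1) σ A (γ i)
      have e6 : 0 < ((-1) ^ (q' - i) * FA) * ((-1) ^ (q' - 1 - i) * FE) := by
        have e7 : ((-1 : ℝ)) ^ (q' - 1 - i) * (-1) ^ (q' - 1 - i) = 1 := by
          rw [← mul_pow]
          norm_num
        have e8 : ((-1) ^ (q' - i) * FA) * ((-1) ^ (q' - 1 - i) * FE) = -(FA * FE) := by
          rw [e5, pow_succ]
          linear_combination (-(FA * FE)) * e7
        rw [e8, e1, neg_neg]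
        exact e3
      exact pos_of_mul_pos_left e6 e4.le
    have h0 := FF_zero_pos (h' + 1) (p' + 1) (q' + 1) hq hh A (by rwa [hN])
    rw [hN, ← hσ] at h0
    let s : ℕ → ℝ := fun j => if j = 0 then 0 else γ (j - 1)
    have hs0 : s 0 = 0 := rfl
    have hsS : ∀ j, s (j + 1) = γ j := fun j => rfl
    have hsm : ∀ i, i + 1 < q' + 1 → s i < s (i + 1) := by
      intro i hi
      rcases i with _ | i
      · rw [hs0, hsS]
        exact hγ0 0 (by omega)
      · rw [hsS, hsS]
        exact hγm i (by omega)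
    have hdeg := natDegree_GG_le (m + 2) (h' + 1) (p' + 1) (by omega) σ A
    have hcoe := coeff_GG (m + 2) (h' + 1) (p' + 1) (by omega) σ A
    have hmp : m + 2 - (p' + 1) = q' + 1 := by omega
    rw [hmp] at hdeg hcoe
    obtain ⟨α, ha1, ha2, ha3⟩ := exists_roots (q' + 1) (GG (m + 2) (h' + 1) (p' + 1) σ A)
      (dt (m + 2) A) hA.pos hdeg hcoe s hsm (by
        intro i hi
        rw [eval_GG]
        rcases i with _ | i
        · exact h0
        · rw [hsS, show q' + 1 - (i + 1) = q' - i by omega]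
          exact hγA i (by omega))
    simp only [eval_GG] at ha3
    have hspos : ∀ i < q' + 1, 0 ≤ s i := by
      intro i hi
      rcases i with _ | i
      · exact le_rfl
      · rw [hsS]
        exact (hγ0 i (by omega)).le
    have hapos : ∀ i < q' + 1, 0 < α i := fun i hi => lt_of_le_of_lt (hspos i hi) (ha1 i hi)
    refine ⟨α, hapos, fun i hi => (ha2 i hi).trans (ha1 (i + 1) hi), ha3, ?_⟩
    have hsmono : ∀ i j, i ≤ j → j < q' + 1 → s i ≤ s j := by
      intro i j hij
      induction j, hij using Nat.le_induction with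
      | base => exact fun _ => le_rfl
      | succ k hk ih => exact fun h => (ih (by omega)).trans (hsm k h).le
    intro i hi
    have e1 := dj (α i)
    have e2 : FF (m + 2) (h' + 1) (p' + 1) σ A (α i) = 0 := by
      rw [ha3, prod_eq_zero (mem_range.2 hi), mul_zero]
      exact sub_self _
    rw [e2, zero_mul] at e1
    have e3 := mul_pos (hO1 _ (hapos i hi)) (hO2 _ (hapos i hi))
    have e4 : 0 < (-1) ^ (q' - i) * FF (m + 1) (h' + 1) (p' + 1) σ A (α i) := by
      rw [hγF]
      have e5 := sign_prod q' i (by omega) γ (α i)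
        (fun k hk => by
          rw [← hsS]
          exact lt_of_le_of_lt (hsmono (k + 1) i (by omega) (by omega)) (ha1 i hi))
        (fun k hk hk' => by
          rw [← hsS]
          exact lt_of_lt_of_le (ha2 i (by omega)) (hsmono (i + 1) (k + 1) (by omega) (by omega)))
      have := mul_pos (hA.mono (n := m + 1) (by omega)).pos e5
      calc (0 : ℝ) < _ := this
        _ = _ := by ring
    set FB := FF (m + 1) h' p' σ (fun i j => A (i + 1) (j + 1)) (α i)
    set FC := FF (m + 1) (h' + 1) (p' + 1) σ A (α i)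
    have e6 : 0 < ((-1) ^ (q' - i) * FB) * ((-1) ^ (q' - i) * FC) := by
      have e7 : ((-1 : ℝ)) ^ (q' - i) * (-1) ^ (q' - i) = 1 := by
        rw [← mul_pow]
        norm_num
      have e8 : ((-1) ^ (q' - i) * FB) * ((-1) ^ (q' - i) * FC) = FC * FB := by
        linear_combination (FC * FB) * e7
      rw [e8]
      linarith
    exact pos_of_mul_pos_left e6 e4.le

/-- **Theorem R**: the roots of the pencil of a strictly totally positive matrix -/
theorem roots (h p q : ℕ) (hh : h ≤ p) (A : ℕ → ℕ → ℝ) (hA : STP (p + q) A) :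
    ∃ α : ℕ → ℝ, (∀ i < min h q, 0 < α i) ∧ (∀ i, i + 1 < min h q → α i < α (i + 1)) ∧
      ∀ x, FF (p + q) h p ((-1) ^ (p + h)) A x =
        dt (p + q) A * (x ^ (q - min h q) * ∏ i ∈ range (min h q), (x - α i)) := by
  rcases le_total q h with hq | hq
  · obtain ⟨α, h1, h2, h3, -⟩ := roots_aux (p + q) h p q A rfl hq hh hA
    rw [min_eq_right hq]
    refine ⟨α, h1, h2, fun x => ?_⟩
    rw [h3, Nat.sub_self, pow_zero, one_mul]
  · rw [min_eq_left hq]
    have hT : STP (p + q) (fun i j => A (p + q - 1 - j) (p + q - 1 - i)) := hA.rev.transpose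
    obtain ⟨α, h1, h2, h3, -⟩ := roots_aux (p + q) q (p + q - h) h _ (by omega) hq (by omega) hT
    refine ⟨α, h1, h2, ?_⟩
    have hσ : ((-1 : ℝ)) ^ (p + q - h + q) = (-1) ^ (p + h) := by
      have e1 : (p + q - h + q) + 2 * h = (p + h) + 2 * q := by omega
      have e2 : ((-1 : ℝ)) ^ ((p + q - h + q) + 2 * h) = (-1) ^ ((p + h) + 2 * q) := by rw [e1]
      rw [pow_add _ _ (2 * h), pow_mul _ 2 h, pow_add _ (p + h) (2 * q), pow_mul _ 2 q] at e2
      simpa using e2
    rw [hσ] at h3
    have hdt : dt (p + q) (fun i j => A (p + q - 1 - j) (p + q - 1 - i)) = dt (p + q) A := by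
      rw [← dt_rev (p + q) A, ← dt_transpose]
    have hpoly : GG (p + q) h p ((-1) ^ (p + h)) A = X ^ (q - h) *
        GG (p + q) q (p + q - h) ((-1) ^ (p + h)) (fun i j => A (p + q - 1 - j) (p + q - 1 - i)) := by
      have e1 := FF_anti (p + q) h p (by omega) (by omega) (C ((-1) ^ (p + h)))
        (fun i j => C (A i j)) (X : ℝ[X])
      rw [Nat.add_sub_cancel_left] at e1
      have e2 : (X : ℝ[X]) ^ h ≠ 0 := pow_ne_zero _ X_ne_zero
      apply mul_left_cancel₀ e2
      rw [← mul_assoc, ← pow_add, Nat.add_sub_cancel' hq]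
      exact e1
    intro x
    rw [← eval_GG, hpoly, eval_mul, eval_GG, h3, hdt, eval_pow, eval_X]
    ring

end Pool.TPR
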